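import Pool.Agent.T9h56.MT.Core
import Pool.Agent.H261R2.CM.L1

/-!
# Closedness, the gap at one and the exhaustion
-/

set_option autoImplicit false

namespace Pool.Agent.T9h56.MT

open Polynomial Filter MeasureTheory Topology Pool.Agent.H261R2.CM

noncomputable section

/-- The measures of the polynomials whose exponents of the first variable lie in a set of the family
and which have no factor free of this variable. -/
def TS (𝒮 : Set (Finset ℕ)) : Set ℝ :=
  {x : ℝ | ∃ (k : ℕ) (F : MvPolynomial (Fin (k + 1)) ℤ), F ≠ 0 ∧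
    (∃ S ∈ 𝒮, ∀ d ∈ F.support, d 0 ∈ S) ∧ (∀ Q, Q ∣ F → Q.degreeOf 0 = 0 → IsUnit Q) ∧ x = mM F}

theorem TS_mono {𝒮 𝒮' : Set (Finset ℕ)} (h : 𝒮 ⊆ 𝒮') : TS 𝒮 ⊆ TS 𝒮' := by
  rintro x ⟨k, F, h1, ⟨S, hS, h2⟩, h3, h4⟩
  exact ⟨k, F, h1, ⟨S, h hS, h2⟩, h3, h4⟩

theorem one_le_TS {𝒮 : Set (Finset ℕ)} {x : ℝ} (hx : x ∈ TS 𝒮) : 1 ≤ x := by
  obtain ⟨k, F, h1, _, _, rfl⟩ := hx
  exact one_le_mM F h1

/-- representation of a sequence in `TS` -/
theorem rep_seq {N : ℕ} {𝒮 : Set (Finset ℕ)} (h𝒮 : ∀ S ∈ 𝒮, S.card ≤ N) (x : ℕ → ℝ)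
    (hx : ∀ n, x n ∈ TS 𝒮) :
    ∃ (kk : ℕ → ℕ) (A : ∀ n, Fin N → MvPolynomial (Fin (kk n)) ℤ) (s : ℕ → Fin N → ℕ)
      (S : ℕ → Finset ℕ), (∀ n, Function.Injective (s n)) ∧ (∀ n, ∃ i, A n i ≠ 0) ∧
      (∀ n, Prim (A n)) ∧ (∀ n, S n ∈ 𝒮) ∧ (∀ n i, A n i ≠ 0 → s n i ∈ S n) ∧
      ∀ n, x n = mM (PS (A n) (s n)) := by
  choose kk F hF0 hS hprim hxF using hx
  choose S hS1 hS2 using hS
  choose A s hs hFA hAS using fun n => exists_PS (F n) (S n) (hS2 n) N (h𝒮 _ (hS1 n))
  refine ⟨kk, A, s, S, hs, fun n => ?_, fun n => ?_, hS1, hAS, fun n => ?_⟩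
  · by_contra hcon
    push Not at hcon
    apply hF0 n
    rw [hFA n]
    unfold PS
    exact Finset.sum_eq_zero fun i _ => by rw [hcon i, map_zero, zero_mul]
  · apply prim_of_PS (s := s n)
    rw [← hFA n]
    exact hprim n
  · rw [hxF n, hFA n]

theorem hyper_tendsto {x : ℕ → ℝ} {μ : ℝ} (h : Tendsto x atTop (𝓝 μ)) :
    Tendsto x (hyperfilter ℕ : Filter ℕ) (𝓝 μ) := h.mono_left I2_hyper_le

theorem q_tendsto {q : ℕ → ℝ} (h1 : ∀ᶠ n in (hyperfilter ℕ : Filter ℕ), 1 ≤ q n)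
    (h : Tendsto (fun n => Real.log (q n)) (hyperfilter ℕ : Filter ℕ) (𝓝 0)) :
    Tendsto q (hyperfilter ℕ : Filter ℕ) (𝓝 1) := by
  have h2 := (Real.continuous_exp.tendsto _).comp h
  rw [Real.exp_zero] at h2
  refine h2.congr' ?_
  filter_upwards [h1] with n hn
  exact Real.exp_log (by linarith)

theorem closed_TS (N : ℕ) (𝒮 : Set (Finset ℕ)) (h𝒮 : ∀ S ∈ 𝒮, S.card ≤ N) : IsClosed (TS 𝒮) := by
  refine IsSeqClosed.isClosed ?_
  intro x μ hx hlim
  obtain ⟨kk, A, s, S, hs, hA0, hA, hS, hAS, hxA⟩ := rep_seq h𝒮 x hx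
  obtain ⟨K, hK⟩ := hlim.bddAbove_range
  obtain ⟨K', A', n0, e, q, f, hA', hA'0, hA'A, he, hq, hev⟩ := core kk A s hs hA0 hA K
    (fun n => by rw [← hxA n]; exact hK ⟨n, rfl⟩) (fun n => 1 / ((n : ℝ) + 1))
    (fun n => by positivity)
  have hF0 := PS_ne_zero A' (s n0) (hs n0) hA'0
  have h1 := m1_lim (hyperfilter ℕ : Filter ℕ) e he (PS A' (s n0)) hF0
  have hf : Tendsto f (hyperfilter ℕ : Filter ℕ) (𝓝 μ) := by
    have h2 : Tendsto (fun n => f n - x n) (hyperfilter ℕ : Filter ℕ) (𝓝 0) := by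
      refine squeeze_zero_norm' ?_ (hyper_tendsto (tendsto_one_div_add_atTop_nhds_zero_nat (𝕜 := ℝ)))
      filter_upwards [hev] with n hn
      rw [Real.norm_eq_abs, hxA n]
      exact hn.2.1.le
    have h3 := h2.add (hyper_tendsto hlim)
    rw [zero_add] at h3
    refine h3.congr fun n => ?_
    ring
  have hq1 := q_tendsto (hev.mono fun n hn => hn.1) hq
  have h4 : Tendsto (fun n => m1 (spec (e n) (PS A' (s n0)))) (hyperfilter ℕ : Filter ℕ) (𝓝 μ) := by
    have h5 := hq1.mul hf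
    rw [one_mul] at h5
    refine h5.congr' ?_
    filter_upwards [hev] with n hn
    exact hn.2.2.symm
  have h6 := tendsto_nhds_unique h4 h1
  refine ⟨K', PS A' (s n0), hF0, ⟨S n0, hS n0, ?_⟩, PS_prim hA' (hs n0), h6⟩
  exact support_PS A' (s n0) (S n0) fun i hi => hAS n0 i (hA'A i hi)

theorem gap_TS (N : ℕ) : ∃ δ : ℝ, 0 < δ ∧ ∀ 𝒮 : Set (Finset ℕ), (∀ S ∈ 𝒮, S.card ≤ N) →
    ∀ x ∈ TS 𝒮, x = 1 ∨ 1 + δ ≤ x := by
  set 𝒮N : Set (Finset ℕ) := {S | S.card ≤ N} with h𝒮N
  suffices h : ∃ δ : ℝ, 0 < δ ∧ ∀ x ∈ TS 𝒮N, x = 1 ∨ 1 + δ ≤ x by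
    obtain ⟨δ, hδ, h1⟩ := h
    exact ⟨δ, hδ, fun 𝒮 h𝒮 x hx => h1 x (TS_mono (fun S hS => h𝒮 S hS) hx)⟩
  by_contra hcon
  push Not at hcon
  choose x hx hx1 hx2 using fun n : ℕ => hcon (1 / ((n : ℝ) + 1)) (by positivity)
  have hgt : ∀ n, 1 < x n := fun n => lt_of_le_of_ne (one_le_TS (hx n)) (Ne.symm (hx1 n))
  obtain ⟨kk, A, s, S, hs, hA0, hA, hS, hAS, hxA⟩ := rep_seq (N := N) (fun S hS => hS) x hx
  obtain ⟨K', A', n0, e, q, f, hA', hA'0, hA'A, he, hq, hev⟩ := core kk A s hs hA0 hA 2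
    (fun n => by
      rw [← hxA n]
      have h1 := hx2 n
      have h2 : 1 / ((n : ℝ) + 1) ≤ 1 := by
        rw [div_le_one (by positivity)]
        have : (0 : ℝ) ≤ n := Nat.cast_nonneg n
        linarith
      linarith) (fun n => min (1 / ((n : ℝ) + 1)) (x n - 1))
    (fun n => lt_min (by positivity) (by linarith [hgt n]))
  have hF0 := PS_ne_zero A' (s n0) (hs n0) hA'0
  obtain ⟨c, hc, hgap⟩ := spec_gap (PS A' (s n0)) hF0
  have hq1 := q_tendsto (hev.mono fun n hn => hn.1) hq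
  have hz := hyper_tendsto (tendsto_one_div_add_atTop_nhds_zero_nat (𝕜 := ℝ))
  have hf : Tendsto f (hyperfilter ℕ : Filter ℕ) (𝓝 1) := by
    have h3 : Tendsto (fun n : ℕ => 1 + 2 * (1 / ((n : ℝ) + 1))) (hyperfilter ℕ : Filter ℕ) (𝓝 1) := by
      have := (hz.const_mul 2).const_add 1
      simpa using this
    refine tendsto_of_tendsto_of_tendsto_of_le_of_le' tendsto_const_nhds h3 ?_ ?_
    · filter_upwards [hev] with n hn
      have h4 := (abs_lt.1 (lt_of_lt_of_le hn.2.1 (min_le_right _ _))).1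
      rw [← hxA n] at h4
      linarith
    · filter_upwards [hev] with n hn
      have h4 := (abs_lt.1 (lt_of_lt_of_le hn.2.1 (min_le_left _ _))).2
      rw [← hxA n] at h4
      have := hx2 n
      linarith
  have h5 : Tendsto (fun n => q n * f n) (hyperfilter ℕ : Filter ℕ) (𝓝 1) := by
    have := hq1.mul hf
    rwa [one_mul] at this
  obtain ⟨n, h6, h7⟩ := ((h5.eventually_lt_const hc).and hev).exists
  have h8 : 1 < f n := by
    have h4 := (abs_lt.1 (lt_of_lt_of_le h7.2.1 (min_le_right _ _))).1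
    rw [← hxA n] at h4
    linarith
  have h9 : 1 < q n * f n := by nlinarith [h7.1]
  rw [← h7.2.2] at h9 h6
  have := hgap (e n) h9
  linarith

theorem mM_toMv (G : ℤ[X]) (hG : G ≠ 0) : mM (toMv G) = m1 G := by
  unfold mM
  simp only [tv_toMv]
  rw [integral_fin_one (fun t => Real.log ‖ev1 G t‖), ← D_log_m1]
  exact Real.exp_log (lt_of_lt_of_le one_pos (I1_one_le_m1 hG))

theorem support_toMv (G : ℤ[X]) : ∀ d ∈ (toMv G).support, d 0 ∈ G.support := by
  classical
  intro d hd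
  have h1 : toMv G = ∑ i ∈ G.support, MvPolynomial.monomial (Finsupp.single 0 i) (G.coeff i) := by
    unfold toMv
    rw [Polynomial.aeval_eq_sum_range' (Nat.lt_succ_self _)]
    rw [← Finset.sum_subset (s₁ := G.support)]
    · refine Finset.sum_congr rfl fun i _ => ?_
      rw [MvPolynomial.X_pow_eq_monomial, MvPolynomial.smul_monomial, smul_eq_mul, mul_one]
    · intro i hi
      rw [Finset.mem_range]
      exact Nat.lt_succ_of_le (Polynomial.le_natDegree_of_mem_supp i hi)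
    · intro i _ hi
      rw [Polynomial.notMem_support_iff.1 hi, zero_smul]
  rw [h1, MvPolynomial.mem_support_iff, MvPolynomial.coeff_sum] at hd
  obtain ⟨i, hi, hne⟩ := Finset.exists_ne_zero_of_sum_ne_zero hd
  rw [MvPolynomial.coeff_monomial] at hne
  split_ifs at hne with h
  · rw [← h, Finsupp.single_eq_same]
    exact hi
  · exact absurd rfl hne

theorem prim_toMv (G : ℤ[X]) (hG : G.IsPrimitive) :
    ∀ Q, Q ∣ toMv G → Q.degreeOf 0 = 0 → IsUnit Q := by
  intro Q hQ h0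
  have h1 : Q = MvPolynomial.C (MvPolynomial.coeff 0 Q) :=
    J.eq_C_of_degreeOf_zero fun i => by rw [Subsingleton.elim i 0]; exact h0
  set r := MvPolynomial.coeff 0 Q with hr
  rw [h1] at hQ ⊢
  have h2 := map_dvd (spec (fun _ => 1 : Fin 1 → ℕ)) hQ
  rw [spec_toMv _ rfl] at h2
  have h3 : spec (fun _ => 1 : Fin 1 → ℕ) (MvPolynomial.C r) = Polynomial.C r := by
    unfold spec
    rw [MvPolynomial.aeval_C]
    rfl
  rw [h3] at h2
  exact (hG r h2).map MvPolynomial.C

/-- every Mahler measure occurs -/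
theorem exhaust {k : ℕ} (F : MvPolynomial (Fin k) ℤ) (hF : F ≠ 0) :
    mM F ∈ TS {S | S.card ≤ 2 * F.support.card} := by
  classical
  set N := 2 * F.support.card with hN
  set 𝒮 : Set (Finset ℕ) := {S | S.card ≤ N} with h𝒮
  have hcl := closed_TS N 𝒮 (fun S hS => hS)
  set e : ℕ → Fin k → ℕ := fun (n : ℕ) (i : Fin k) => n ^ (i : ℕ) with he
  have he1 : AsympIndep (hyperfilter ℕ : Filter ℕ) e := fun s hs =>
    I2_hyper_le ((asympIndep_pow k) s hs)
  have hlim := m1_lim (hyperfilter ℕ : Filter ℕ) e he1 F hF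
  refine hcl.mem_of_tendsto hlim ?_
  filter_upwards [spec_ne_zero _ e he1 F hF] with n hn
  set P : ℤ[X] := spec (e n) F with hP
  set c : ℤ := P.content with hc
  have hc0 : c ≠ 0 := by
    rw [hc, Ne, Polynomial.content_eq_zero_iff]
    exact hn
  have hc1 : 1 ≤ c := by
    have h1 : normalize c = c := Polynomial.normalize_content
    have h2 : 0 ≤ c := Int.nonneg_iff_normalize_eq_self c |>.1 h1
    omega
  set R : ℤ[X] := P.primPart with hR
  have hPR : P = Polynomial.C c * R := Polynomial.eq_C_content_mul_primPart P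
  have hRp : R.IsPrimitive := Polynomial.isPrimitive_primPart P
  have hR0 : R ≠ 0 := hRp.ne_zero
  set G : ℤ[X] := R * (X + Polynomial.C c) with hG
  have hXc : (X + Polynomial.C c : ℤ[X]) ≠ 0 := (Polynomial.monic_X_add_C c).ne_zero
  have hG0 : G ≠ 0 := mul_ne_zero hR0 hXc
  have hGp : G.IsPrimitive := hRp.mul (Polynomial.monic_X_add_C c).isPrimitive
  have hm : m1 P = m1 G := by
    have h1 : m1 (X + Polynomial.C c : ℤ[X]) = c := by
      unfold m1 toC
      rw [Polynomial.map_add, Polynomial.map_X, Polynomial.map_C, Polynomial.mahlerMeasure_X_add_C]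
      simp only [eq_intCast, Complex.norm_intCast]
      have h2 : (1 : ℝ) ≤ c := by exact_mod_cast hc1
      rw [abs_of_nonneg (by linarith), max_eq_right h2]
    have h2 : m1 (Polynomial.C c : ℤ[X]) = c := by
      unfold m1 toC
      rw [Polynomial.map_C, Polynomial.mahlerMeasure_const]
      simp only [eq_intCast, Complex.norm_intCast]
      have h2 : (1 : ℝ) ≤ c := by exact_mod_cast hc1
      rw [abs_of_nonneg (by linarith)]
    rw [hPR, hG, I1_m1_mul, I1_m1_mul, h1, h2, mul_comm]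
  have hcard : G.support.card ≤ N := by
    have h1 : G.support ⊆ R.support.image (fun i => i + 1) ∪ R.support := by
      intro i hi
      rw [Polynomial.mem_support_iff, hG, mul_add, Polynomial.coeff_add] at hi
      rw [Finset.mem_union]
      by_cases h2 : R.coeff i = 0
      · left
        rw [Polynomial.coeff_mul_C, h2, zero_mul, add_zero] at hi
        cases i with
        | zero => simp at hi
        | succ i =>
          rw [Polynomial.coeff_mul_X] at hi
          exact Finset.mem_image.2 ⟨i, Polynomial.mem_support_iff.2 hi, rfl⟩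
      · right
        exact Polynomial.mem_support_iff.2 h2
    have h2 : R.support.card ≤ F.support.card := by
      have h3 : P.support.card ≤ F.support.card := card_support_spec (e n) F
      have h4 : R.support ⊆ P.support := by
        intro i hi
        rw [Polynomial.mem_support_iff] at hi ⊢
        rw [hPR, Polynomial.coeff_C_mul]
        exact mul_ne_zero hc0 hi
      exact (Finset.card_le_card h4).trans h3
    calc G.support.card ≤ (R.support.image (fun i => i + 1) ∪ R.support).card :=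
          Finset.card_le_card h1
      _ ≤ (R.support.image (fun i => i + 1)).card + R.support.card := Finset.card_union_le _ _
      _ ≤ R.support.card + R.support.card := Nat.add_le_add_right Finset.card_image_le _
      _ ≤ N := by rw [hN]; omega
  refine ⟨0, toMv G, toMv_ne hG0, ⟨G.support, hcard, support_toMv G⟩, prim_toMv G hGp, ?_⟩
  rw [hm]
  exact (mM_toMv G hG0).symm

end

end Pool.Agent.T9h56.MT
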