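import Pool.Agent.T9h56.MT.Fub

/-!
# Approximation by one-variable vectors
-/

set_option autoImplicit false

namespace Pool.Agent.T9h56.MT

open Polynomial Filter MeasureTheory Topology Pool.Agent.H261R2.CM

noncomputable section

/-- the one-variable polynomial `∑ a_i X ^ (E s_i)` -/
def one {N : ℕ} (a : Fin N → ℤ[X]) (s : Fin N → ℕ) (E : ℕ) : ℤ[X] := ∑ i, a i * X ^ (E * s i)

theorem indep_one (𝓕 : Filter ℕ) : AsympIndep 𝓕 (fun _ _ => 1 : ℕ → Fin 1 → ℕ) := by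
  intro s hs
  refine Eventually.of_forall fun n => ?_
  have h : s 0 ≠ 0 := by
    intro h
    apply hs
    funext i
    rw [Subsingleton.elim i 0, h]
    rfl
  simpa using h

/-- Boyd's limit formula in two variables -/
theorem lim_two {N : ℕ} (a : Fin N → ℤ[X]) (s : Fin N → ℕ) (hs : Function.Injective s)
    (ha : ∃ i, a i ≠ 0) :
    Tendsto (fun n => m1 (one a s (n + 1))) (hyperfilter ℕ : Filter ℕ) (𝓝 (mM (P2 a s))) := by
  have h1 : AsympIndep (hyperfilter ℕ : Filter ℕ)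
      (fun n => (Fin.cons (n + 1) (fun _ => 1) : Fin 2 → ℕ)) :=
    indep_cons _ I2_hyper_le (fun _ _ => 1) (indep_one _) (fun n => n + 1)
      (Eventually.of_forall fun n => by simp)
  have h2 := m1_lim (hyperfilter ℕ : Filter ℕ) _ h1 (P2 a s) (P2_ne a s hs ha)
  refine h2.congr fun n => ?_
  rw [spec_P2]
  rfl

theorem lim_two_ex {N : ℕ} (a : Fin N → ℤ[X]) (s : Fin N → ℕ) (hs : Function.Injective s)
    (ha : ∃ i, a i ≠ 0) (δ : ℝ) (hδ : 0 < δ) (E0 : ℕ) :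
    ∃ E, E0 ≤ E ∧ |m1 (one a s E) - mM (P2 a s)| < δ := by
  have h1 := (Metric.tendsto_nhds.1 (lim_two a s hs ha)) δ hδ
  obtain ⟨n, hn1, hn2⟩ := (h1.and (I2_hyper_le (eventually_ge_atTop E0))).exists
  refine ⟨n + 1, by omega, ?_⟩
  rwa [Real.dist_eq] at hn1

theorem one_mul_left {N : ℕ} (g : ℤ[X]) (a b : Fin N → ℤ[X]) (s : Fin N → ℕ) (E : ℕ)
    (h : ∀ i, b i = g * a i) : one b s E = g * one a s E := by
  unfold one
  rw [Finset.mul_sum]
  refine Finset.sum_congr rfl fun i _ => ?_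
  rw [h i, mul_assoc]

theorem mM_mul_left {N : ℕ} (g : ℤ[X]) (hg : g ≠ 0) (a b : Fin N → ℤ[X]) (s : Fin N → ℕ)
    (hs : Function.Injective s) (ha : ∃ i, a i ≠ 0) (h : ∀ i, b i = g * a i) :
    mM (P2 b s) = m1 g * mM (P2 a s) := by
  have hb : ∃ i, b i ≠ 0 := by
    obtain ⟨i, hi⟩ := ha
    exact ⟨i, by rw [h i]; exact mul_ne_zero hg hi⟩
  have h1 := lim_two b s hs hb
  have h2 := (lim_two a s hs ha).const_mul (m1 g)
  refine tendsto_nhds_unique h1 (h2.congr fun n => ?_)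
  rw [one_mul_left g a b s _ h, I1_m1_mul]


/-- Approximation of a polynomial by one-variable vectors. -/
theorem approx_vec (N : ℕ) : ∃ cN : ℝ, ∀ (k : ℕ) (A : Fin N → MvPolynomial (Fin k) ℤ) (s : Fin N → ℕ),
    Function.Injective s → (∃ i, A i ≠ 0) → Prim A → ∀ ε : ℝ, 0 < ε →
    ∃ a : Fin N → ℤ[X], (∃ i, a i ≠ 0) ∧ Prim a ∧ (∀ i, a i ≠ 0 → A i ≠ 0) ∧
      hv a ≤ Real.log (mM (PS A s) + 1) + cN ∧
      ∀ E0 : ℕ, ∃ E, E0 ≤ E ∧ |m1 (one a s E) - mM (PS A s)| < ε := by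
  classical
  obtain ⟨cN, hcN⟩ := hv_le N
  refine ⟨cN, fun k A s hs hA0 hA ε hε => ?_⟩
  obtain ⟨i0, hi0⟩ := hA0
  set e : ℕ → Fin k → ℕ := fun (n : ℕ) (i : Fin k) => n ^ (i : ℕ) with he
  have he1 : AsympIndep (hyperfilter ℕ : Filter ℕ) e := fun s hs =>
    I2_hyper_le ((asympIndep_pow k) s hs)
  set v : ℕ → Fin N → ℤ[X] := fun M i => spec (e M) (A i) with hv
  have hsel : ∀ M, ∃ (g : ℤ[X]) (a : Fin N → ℤ[X]), g ≠ 0 ∧ (∃ i, a i ≠ 0) ∧ Prim a ∧
      (v M i0 ≠ 0 → ∀ i, v M i = g * a i) := by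
    intro M
    by_cases h : v M i0 ≠ 0
    · obtain ⟨g, hg, a, ha, hp⟩ := exists_prim (v M) ⟨i0, h⟩
      refine ⟨g, a, hg, ⟨i0, ?_⟩, hp, fun _ => ha⟩
      intro h0
      exact h (by rw [ha i0, h0, mul_zero])
    · refine ⟨1, fun _ => 1, one_ne_zero, ⟨i0, one_ne_zero⟩, fun π hπ => ?_, fun h' => absurd h' h⟩
      exact isUnit_of_dvd_one (hπ i0)
  choose g a hg ha0 hap hga using hsel
  have hgood : ∀ᶠ M in (hyperfilter ℕ : Filter ℕ), v M i0 ≠ 0 := spec_ne_zero _ e he1 (A i0) hi0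
  -- the common factors
  have hglim : Tendsto (fun M => Real.log (m1 (g M))) (hyperfilter ℕ : Filter ℕ) (𝓝 0) := by
    refine gcd_lim A ⟨i0, hi0⟩ hA e he1 g ?_
    filter_upwards [hgood] with M hM
    exact ⟨hg M, fun i => ⟨a M i, hga M hM i⟩⟩
  have hglim1 : Tendsto (fun M => m1 (g M)) (hyperfilter ℕ : Filter ℕ) (𝓝 1) := by
    have h1 := (Real.continuous_exp.tendsto _).comp hglim
    rw [Real.exp_zero] at h1
    refine h1.congr fun M => ?_
    exact Real.exp_log (lt_of_lt_of_le one_pos (I1_one_le_m1 (hg M)))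
  -- exponents of the last variable
  have hEsel : ∀ M : ℕ, ∃ E : ℕ, M * (∑ i, e M i) + 1 ≤ E ∧
      (v M i0 ≠ 0 → |m1 (one (v M) s E) - mM (P2 (v M) s)| < 1 / ((M : ℝ) + 1)) := by
    intro M
    by_cases h : v M i0 ≠ 0
    · obtain ⟨E, h1, h2⟩ := lim_two_ex (v M) s hs ⟨i0, h⟩ (1 / ((M : ℝ) + 1)) (by positivity)
        (M * (∑ i, e M i) + 1)
      exact ⟨E, h1, fun _ => h2⟩
    · exact ⟨_, le_rfl, fun h' => absurd h' h⟩
  choose E hE1 hE2 using hEsel
  have hI : AsympIndep (hyperfilter ℕ : Filter ℕ)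
      (fun n => (Fin.cons (E n) (e n) : Fin (k + 1) → ℕ)) :=
    indep_cons _ I2_hyper_le e he1 E (Eventually.of_forall fun n => by
      have := hE1 n
      omega)
  have hl1 := m1_lim (hyperfilter ℕ : Filter ℕ) _ hI (PS A s) (PS_ne_zero A s hs ⟨i0, hi0⟩)
  have hl1' : Tendsto (fun M => m1 (one (v M) s (E M))) (hyperfilter ℕ : Filter ℕ)
      (𝓝 (mM (PS A s))) := by
    refine hl1.congr fun M => ?_
    rw [spec_PS]
    rfl
  have hl2 : Tendsto (fun M => mM (P2 (v M) s)) (hyperfilter ℕ : Filter ℕ) (𝓝 (mM (PS A s))) := by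
    have h1 : Tendsto (fun M => m1 (one (v M) s (E M)) - mM (P2 (v M) s))
        (hyperfilter ℕ : Filter ℕ) (𝓝 0) := by
      have h2 : Tendsto (fun n : ℕ => 1 / ((n : ℝ) + 1)) (hyperfilter ℕ : Filter ℕ) (𝓝 0) :=
        (tendsto_one_div_add_atTop_nhds_zero_nat (𝕜 := ℝ)).mono_left I2_hyper_le
      refine squeeze_zero_norm' ?_ h2
      filter_upwards [hgood] with M hM
      rw [Real.norm_eq_abs]
      exact (hE2 M hM).le
    have h3 := hl1'.sub h1
    rw [sub_zero] at h3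
    refine h3.congr fun M => ?_
    ring
  have hl3 : Tendsto (fun M => mM (P2 (a M) s)) (hyperfilter ℕ : Filter ℕ) (𝓝 (mM (PS A s))) := by
    have h1 := hl2.div hglim1 one_ne_zero
    rw [div_one] at h1
    refine h1.congr' ?_
    filter_upwards [hgood] with M hM
    have h2 := mM_mul_left (g M) (hg M) (a M) (v M) s hs (ha0 M) (hga M hM)
    have h3 : 0 < m1 (g M) := lt_of_lt_of_le one_pos (I1_one_le_m1 (hg M))
    simp only [Pi.div_apply]
    rw [h2]
    field_simp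
  have hmin : 0 < min (ε / 2) 1 := lt_min (by linarith) one_pos
  obtain ⟨M, hM1, hM2⟩ := ((Metric.tendsto_nhds.1 hl3 _ hmin).and hgood).exists
  rw [Real.dist_eq] at hM1
  have hMa := lt_of_lt_of_le hM1 (min_le_left _ _)
  have hMb := lt_of_lt_of_le hM1 (min_le_right _ _)
  refine ⟨a M, ha0 M, hap M, fun i hi => ?_, ?_, fun E0 => ?_⟩
  · intro h0
    have h1 := hga M hM2 i
    simp only [hv] at h1
    rw [h0, map_zero] at h1
    exact hi ((mul_eq_zero.1 h1.symm).resolve_left (hg M))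
  · have h1 := hcN (a M) s hs (ha0 M)
    have h2 : 0 < mM (P2 (a M) s) := Real.exp_pos _
    have h3 : Real.log (mM (P2 (a M) s)) ≤ Real.log (mM (PS A s) + 1) := by
      apply Real.log_le_log h2
      have := (abs_lt.1 hMb).2
      linarith
    linarith
  · obtain ⟨E', h1, h2⟩ := lim_two_ex (a M) s hs (ha0 M) (ε / 2) (by linarith) E0
    refine ⟨E', h1, ?_⟩
    calc |m1 (one (a M) s E') - mM (PS A s)|
        ≤ |m1 (one (a M) s E') - mM (P2 (a M) s)| + |mM (P2 (a M) s) - mM (PS A s)| :=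
          abs_sub_le _ _ _
      _ < ε := by linarith

end

end Pool.Agent.T9h56.MT
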