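import Pool.Agent.H261R2.CM.G
import Pool.Agent.H261R2.CM.I3
import Pool.Agent.H261R2.CM.K5

/-!
# Structure of relations with a common basis of exponents
-/

set_option autoImplicit false

namespace Pool.Agent.T9h56.MT

open Polynomial Filter MeasureTheory Topology Pool.Agent.H261R2.CM Pool.Agent.H261R2.CM.TG

noncomputable section

/-- exponents given by a positive basis of a group of germs -/
def expo {k : ℕ} (b : Fin k → Gam) (n : ℕ) (i : Fin k) : ℕ := (rep (b i) n).toNat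

theorem expo_ev {k : ℕ} (b : Fin k → Gam) (hbpos : ∀ i, 0 < b i) :
    ∀ᶠ n in (hyperfilter ℕ : Filter ℕ), ∀ i, (expo b n i : ℤ) = rep (b i) n ∧ 0 < expo b n i := by
  rw [Filter.eventually_all]
  intro i
  have h1 : (0 : Gam) < ((rep (b i) : ℕ → ℤ) : Gam) := by
    rw [rep_spec]
    exact hbpos i
  have h2 := (Filter.Germ.coe_pos (φ := hyperfilter ℕ) (f := rep (b i))).1 h1
  filter_upwards [h2] with n hn
  unfold expo
  refine ⟨Int.toNat_of_nonneg hn.le, ?_⟩
  simpa using hn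

theorem expo_indep {k : ℕ} (b : Fin k → Gam) (hbpos : ∀ i, 0 < b i)
    (hind : ∀ c : Fin k → ℤ, ∑ i, c i • b i = 0 → c = 0) :
    AsympIndep (hyperfilter ℕ : Filter ℕ) (expo b) := by
  intro s hs
  rw [Ultrafilter.eventually_not]
  intro h0
  apply hs
  apply hind s
  rw [rel_zero]
  filter_upwards [h0, expo_ev b hbpos] with n h0 h1
  rw [← h0]
  exact Finset.sum_congr rfl fun i _ => by rw [(h1 i).1]

theorem expo_coord {k : ℕ} (b : Fin k → Gam) (hbpos : ∀ i, 0 < b i) (a : Gam → Fin k → ℤ)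
    (F : Finset Gam) (hspan : ∀ γ ∈ F, ∑ i, a γ i • b i = γ) :
    ∀ᶠ n in (hyperfilter ℕ : Filter ℕ), ∀ γ ∈ F, ∑ i, a γ i * (expo b n i : ℤ) = rep γ n := by
  rw [Filter.eventually_all_finset]
  intro γ hγ
  have := (rel_iff b (a γ) γ).1 (hspan γ hγ)
  filter_upwards [this, expo_ev b hbpos] with n h0 h1
  rw [← h0]
  exact Finset.sum_congr rfl fun i _ => by rw [(h1 i).1]

theorem structure_common {k : ℕ} (b : Fin k → Gam) (a : Gam → Fin k → ℤ) (hbpos : ∀ i, 0 < b i)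
    (hind : ∀ c : Fin k → ℤ, ∑ i, c i • b i = 0 → c = 0) (F : Finset Gam)
    (hspan : ∀ γ ∈ F, ∑ i, a γ i • b i = γ)
    (A B : ℕ → ℤ[X]) (hA : ∀ n, A n ≠ 0) (hB : ∀ n, B n ≠ 0)
    (x : Gam → Bool → ℤ) (hx : ∃ γ ∈ F, ∃ b, x γ b ≠ 0)
    (hrel : ∀ᶠ n in (hyperfilter ℕ : Filter ℕ), ∀ N : ℤ,
      ∑ γ ∈ F, (x γ true * zc (A n) (N - rep γ n) + x γ false * zc (B n) (N - rep γ n)) = 0) :
    ∃ (C D : MvPolynomial (Fin k) ℤ), C ≠ 0 ∧ D ≠ 0 ∧
      ∀ᶠ n in (hyperfilter ℕ : Filter ℕ), spec (expo b n) D * A n = spec (expo b n) C * B n := by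
  classical
  set e : ℕ → Fin k → ℕ := expo b with he
  have hAI : AsympIndep (hyperfilter ℕ : Filter ℕ) e := expo_indep b hbpos hind
  -- coordinates
  have hcoord : ∀ᶠ n in (hyperfilter ℕ : Filter ℕ), ∀ γ ∈ F,
      ∑ i, a γ i * (e n i : ℤ) = rep γ n := expo_coord b hbpos a F hspan
  -- the shift
  set a0 : ℕ := ∑ γ ∈ F, ∑ i, (a γ i).natAbs with ha0
  have hshift : ∀ γ ∈ F, ∀ i, 0 ≤ a γ i + (a0 : ℤ) := by
    intro γ hγ i
    have h1 : (a γ i).natAbs ≤ ∑ i, (a γ i).natAbs :=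
      Finset.single_le_sum (f := fun i => (a γ i).natAbs) (fun _ _ => Nat.zero_le _) (Finset.mem_univ i)
    have h2 : ∑ i, (a γ i).natAbs ≤ a0 :=
      Finset.single_le_sum (f := fun γ => ∑ i, (a γ i).natAbs) (fun _ _ => Nat.zero_le _) hγ
    omega
  set m : Gam → (Fin k →₀ ℕ) := fun γ =>
    Finsupp.equivFunOnFinite.symm (fun i => (a γ i + (a0 : ℤ)).toNat) with hm
  have hm_apply : ∀ γ ∈ F, ∀ i, ((m γ i : ℕ) : ℤ) = a γ i + (a0 : ℤ) := by
    intro γ hγ i
    simp only [hm, Finsupp.equivFunOnFinite_symm_apply_apply]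
    exact Int.toNat_of_nonneg (hshift γ hγ i)
  have hm_inj : ∀ γ ∈ F, ∀ γ' ∈ F, m γ = m γ' → γ = γ' := by
    intro γ hγ γ' hγ' h
    rw [← hspan γ hγ, ← hspan γ' hγ']
    refine Finset.sum_congr rfl fun i _ => ?_
    have h1 := hm_apply γ hγ i
    have h2 := hm_apply γ' hγ' i
    rw [h] at h1
    have : a γ i = a γ' i := by linarith
    rw [this]
  set D' : MvPolynomial (Fin k) ℤ := ∑ γ ∈ F, MvPolynomial.monomial (m γ) (x γ true) with hD'
  set C' : MvPolynomial (Fin k) ℤ := - ∑ γ ∈ F, MvPolynomial.monomial (m γ) (x γ false) with hC'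
  have hco : ∀ (β : Bool), ∀ γ ∈ F,
      (∑ γ ∈ F, MvPolynomial.monomial (m γ) (x γ β)).coeff (m γ) = x γ β := by
    intro β γ hγ
    rw [MvPolynomial.coeff_sum, Finset.sum_eq_single_of_mem γ hγ]
    · simp
    · intro γ' hγ' hne
      rw [MvPolynomial.coeff_monomial, if_neg]
      intro h
      exact hne (hm_inj γ' hγ' γ hγ h)
  have hne_or : C' ≠ 0 ∨ D' ≠ 0 := by
    obtain ⟨γ, hγ, β, hβ⟩ := hx
    cases β with
    | false =>
      left
      intro h0
      apply hβ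
      rw [← hco false γ hγ]
      have : (∑ γ ∈ F, MvPolynomial.monomial (m γ) (x γ false)) = 0 := by
        rw [hC'] at h0
        exact neg_eq_zero.1 h0
      rw [this]
      simp
    | true =>
      right
      intro h0
      apply hβ
      rw [← hco true γ hγ]
      rw [← hD', h0]
      simp
  -- the relation between polynomials
  have hpoly : ∀ᶠ n in (hyperfilter ℕ : Filter ℕ), spec (e n) D' * A n = spec (e n) C' * B n := by
    filter_upwards [hrel, hcoord] with n hr hc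
    have hE : ∀ γ ∈ F, ((∑ i, m γ i * e n i : ℕ) : ℤ) = rep γ n + (a0 : ℤ) * ∑ i, (e n i : ℤ) := by
      intro γ hγ
      push_cast
      rw [← hc γ hγ, Finset.mul_sum, ← Finset.sum_add_distrib]
      refine Finset.sum_congr rfl fun i _ => ?_
      rw [hm_apply γ hγ i]
      ring
    have hs1 : ∀ β, spec (e n) (∑ γ ∈ F, MvPolynomial.monomial (m γ) (x γ β)) =
        ∑ γ ∈ F, Polynomial.C (x γ β) * X ^ (∑ i, m γ i * e n i) := by
      intro β
      rw [map_sum]
      exact Finset.sum_congr rfl fun γ _ => spec_monomial _ _ _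
    rw [hC', map_neg, neg_mul, eq_neg_iff_add_eq_zero, hD', hs1 true, hs1 false]
    ext M
    rw [Polynomial.coeff_add, Finset.sum_mul, Finset.sum_mul, Polynomial.finset_sum_coeff,
      Polynomial.finset_sum_coeff, Polynomial.coeff_zero, ← Finset.sum_add_distrib]
    rw [← hr ((M : ℤ) - (a0 : ℤ) * ∑ i, (e n i : ℤ))]
    refine Finset.sum_congr rfl fun γ hγ => ?_
    rw [coeff_mono_mul, coeff_mono_mul, hE γ hγ]
    have : (M : ℤ) - (rep γ n + (a0 : ℤ) * ∑ i, (e n i : ℤ)) =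
        (M : ℤ) - (a0 : ℤ) * ∑ i, (e n i : ℤ) - rep γ n := by ring
    rw [this]
  have hboth : C' ≠ 0 ∧ D' ≠ 0 := by
    rcases hne_or with h | h
    · refine ⟨h, ?_⟩
      intro h0
      obtain ⟨n, hn1, hn2⟩ := ((spec_ne_zero' _ e hAI C' h).and hpoly).exists
      rw [h0, map_zero, zero_mul] at hn2
      exact (mul_ne_zero hn1 (hB n)) hn2.symm
    · refine ⟨?_, h⟩
      intro h0
      obtain ⟨n, hn1, hn2⟩ := ((spec_ne_zero' _ e hAI D' h).and hpoly).exists
      rw [h0, map_zero, zero_mul] at hn2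
      exact (mul_ne_zero hn1 (hA n)) hn2
  exact ⟨C', D', hboth.1, hboth.2, hpoly⟩

/-- Coprime pairs of bounded height satisfy a nontrivial relation with boundedly many terms. -/
theorem relation_of_height (A B : ℕ → ℤ[X]) (hA : ∀ n, A n ≠ 0) (K : ℝ)
    (hK : ∀ n, mx1 (A n) (B n) ≤ K) :
    ∃ (F : Finset Gam) (x : Gam → Bool → ℤ), (∃ γ ∈ F, ∃ b, x γ b ≠ 0) ∧
      ∀ᶠ n in (hyperfilter ℕ : Filter ℕ), ∀ N : ℤ,
        ∑ γ ∈ F, (x γ true * zc (A n) (N - rep γ n) + x γ false * zc (B n) (N - rep γ n)) = 0 := by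
  set κ : ℝ := Real.log 2 + 2 * K + 1 with hκ
  have hN : ∀ n, N21 (A n) (B n) < κ := fun n => by
    have h1 := N21_le (A n) (B n) (hA n)
    have h2 := hK n
    rw [hκ]
    linarith
  choose p hp1 hp2 using fun n => outer_approx_pair (A n) (B n) (hA n) κ (hN n)
  set a : ℂ := ((1 / 2 : ℝ) : ℂ) with ha
  have ha0 : a ≠ 0 := by
    rw [ha]
    exact_mod_cast (by norm_num : (1 / 2 : ℝ) ≠ 0)
  have hna : ‖a‖ = 1 / 2 := by
    rw [ha, Complex.norm_real]
    norm_num
  have hl : ∀ n (P : ℤ[X]), mass (p n * toC P) ≤ 2 → l2le ((Polynomial.C a * p n) * toC P) := by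
    intro n P h
    change mass ((Polynomial.C a * p n) * toC P) ≤ 1
    rw [mul_assoc, mass_C_mul a ha0, hna]
    linarith
  exact relation_exists A B (fun n => Polynomial.C a * p n)
    (1 / 2 * Real.exp ((Real.log 2 - κ) / 2)) (by positivity)
    (fun n => by
      rw [Polynomial.coeff_C_mul, norm_mul, hna]
      exact mul_le_mul_of_nonneg_left (hp2 n) (by norm_num))
    (fun n => hl n (A n) (by linarith [hp1 n, mass_nonneg (p n * toC (B n))]))
    (fun n => hl n (B n) (by linarith [hp1 n, mass_nonneg (p n * toC (A n))]))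

/-- Finitely many sequences of coprime pairs of bounded height: common exponents. -/
theorem common_structure {M : ℕ} (A B : Fin M → ℕ → ℤ[X]) (hA : ∀ j n, A j n ≠ 0)
    (hB : ∀ j n, B j n ≠ 0) (K : ℝ) (hK : ∀ j n, mx1 (A j n) (B j n) ≤ K) :
    ∃ (k : ℕ) (e : ℕ → Fin k → ℕ) (C D : Fin M → MvPolynomial (Fin k) ℤ),
      (∀ j, C j ≠ 0) ∧ (∀ j, D j ≠ 0) ∧ AsympIndep (hyperfilter ℕ : Filter ℕ) e ∧
      ∀ j, ∀ᶠ n in (hyperfilter ℕ : Filter ℕ), spec (e n) (D j) * A j n = spec (e n) (C j) * B j n := by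
  classical
  choose F x hx hrel using fun j => relation_of_height (A j) (B j) (hA j) K (hK j)
  set G : Finset Gam := Finset.univ.biUnion F with hG
  obtain ⟨k, b, a, hk, hbpos, hind, hspan⟩ := exists_pos_basis G
  have hsub : ∀ j, F j ⊆ G := fun j => Finset.subset_biUnion_of_mem F (Finset.mem_univ j)
  have h := fun j => structure_common b a hbpos hind (F j) (fun γ hγ => hspan γ (hsub j hγ))
    (A j) (B j) (hA j) (hB j) (x j) (hx j) (hrel j)
  choose C D hC hD hCD using h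
  exact ⟨k, expo b, C, D, hC, hD, expo_indep b hbpos hind, hCD⟩

end

end Pool.Agent.T9h56.MT
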