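import Pool.Agent.T9h56.MT.Approx

/-!
# The limit polynomial
-/

set_option autoImplicit false

namespace Pool.Agent.T9h56.MT

open Polynomial Filter MeasureTheory Topology Pool.Agent.H261R2.CM Pool.Agent.H261R2.CM.TG

noncomputable section

/-- independence of the exponents of the limit polynomial -/
theorem indep_final {r k : ℕ} (β : ℕ → Fin r → ℕ) (hβ : AsympIndep (hyperfilter ℕ : Filter ℕ) β)
    (e : ℕ → Fin k → ℕ) (he : AsympIndep (hyperfilter ℕ : Filter ℕ) e) (lam : Fin r → ℕ)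
    (ζ E : ℕ → ℕ) (hζ : ∀ n, n * (∑ i, e n i) < ζ n)
    (hE : ∀ n, n * (ζ n + ∑ i, e n i) < E n) (y : ℕ → Fin r → ℕ)
    (hy : ∀ᶠ n in (hyperfilter ℕ : Filter ℕ), ∀ l, (y n l : ℤ) = E n * β n l - lam l * ζ n) :
    AsympIndep (hyperfilter ℕ : Filter ℕ)
      (fun n => (Fin.cons (ζ n) (Fin.append (y n) (e n)) : Fin (r + k + 1) → ℕ)) := by
  intro s hs
  set t : ℤ := s 0 with ht
  set v : Fin r → ℤ := fun l => s (Fin.castAdd k l).succ with hv
  set u : Fin k → ℤ := fun j => s (Fin.natAdd r j).succ with hu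
  have hsum : ∀ n, ∑ i, s i * (((Fin.cons (ζ n) (Fin.append (y n) (e n)) : Fin (r + k + 1) → ℕ) i : ℕ) : ℤ) =
      t * ζ n + (∑ l, v l * (y n l : ℤ) + ∑ j, u j * (e n j : ℤ)) := by
    intro n
    rw [Fin.sum_univ_succ, Fin.sum_univ_add]
    simp only [Fin.cons_zero, Fin.cons_succ, Fin.append_left, Fin.append_right, ht, hv, hu]
  by_cases hv0 : v = 0
  · have hne : (Fin.cons t u : Fin (k + 1) → ℤ) ≠ 0 := by
      intro h
      apply hs
      have h1 : t = 0 := by
        have := congrFun h 0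
        simpa using this
      have h2 : ∀ j, u j = 0 := by
        intro j
        have := congrFun h j.succ
        simpa using this
      funext i
      refine Fin.cases ?_ (fun i' => ?_) i
      · exact h1
      · refine Fin.addCases (fun l => ?_) (fun j => ?_) i'
        · exact congrFun hv0 l
        · exact h2 j
    have h1 := indep_cons (hyperfilter ℕ : Filter ℕ) I2_hyper_le e he ζ (Eventually.of_forall hζ) _ hne
    filter_upwards [h1] with n hn
    rw [hsum, hv0]
    rw [Fin.sum_univ_succ] at hn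
    simp only [Fin.cons_zero, Fin.cons_succ] at hn
    simpa using hn
  · set M : ℕ := (t - ∑ l, v l * (lam l : ℤ)).natAbs + ∑ j, (u j).natAbs with hM
    filter_upwards [hβ v hv0, hy, I2_hyper_le (eventually_ge_atTop M)] with n h1 h2 h3
    rw [hsum]
    intro hcon
    have h4 : ∑ l, v l * (y n l : ℤ) = E n * ∑ l, v l * (β n l : ℤ) - ζ n * ∑ l, v l * (lam l : ℤ) := by
      rw [Finset.mul_sum, Finset.mul_sum, ← Finset.sum_sub_distrib]
      refine Finset.sum_congr rfl fun l _ => ?_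
      rw [h2 l]
      ring
    rw [h4] at hcon
    have h5 : (E n : ℤ) * ∑ l, v l * (β n l : ℤ) =
        -((t - ∑ l, v l * (lam l : ℤ)) * ζ n + ∑ j, u j * (e n j : ℤ)) := by linarith
    have h6 : |(E n : ℤ) * ∑ l, v l * (β n l : ℤ)| ≤ M * (ζ n + ∑ j, (e n j : ℤ)) := by
      rw [h5, abs_neg]
      refine (abs_add_le _ _).trans ?_
      have h7 : |(t - ∑ l, v l * (lam l : ℤ)) * ζ n| ≤ M * ζ n := by
        rw [abs_mul, abs_of_nonneg (show (0:ℤ) ≤ ζ n by positivity), Int.abs_eq_natAbs]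
        refine mul_le_mul_of_nonneg_right ?_ (by positivity)
        exact_mod_cast Nat.le_add_right _ _
      have h8 : |∑ j, u j * (e n j : ℤ)| ≤ M * ∑ j, (e n j : ℤ) := by
        refine (Finset.abs_sum_le_sum_abs _ _).trans ?_
        rw [Finset.mul_sum]
        refine Finset.sum_le_sum fun j _ => ?_
        rw [abs_mul, abs_of_nonneg (show (0:ℤ) ≤ e n j by positivity), Int.abs_eq_natAbs]
        refine mul_le_mul_of_nonneg_right ?_ (by positivity)
        have : (u j).natAbs ≤ M :=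
          (Finset.single_le_sum (f := fun j => (u j).natAbs) (fun _ _ => Nat.zero_le _)
            (Finset.mem_univ j)).trans (Nat.le_add_left _ _)
        exact_mod_cast this
      have h9 : (M : ℤ) * (ζ n + ∑ j, (e n j : ℤ)) = M * ζ n + M * ∑ j, (e n j : ℤ) := by ring
      rw [h9]
      exact add_le_add h7 h8
    have h10 : (E n : ℤ) ≤ |(E n : ℤ) * ∑ l, v l * (β n l : ℤ)| := by
      rw [abs_mul, abs_of_nonneg (show (0 : ℤ) ≤ (E n : ℤ) by positivity)]
      have : 1 ≤ |∑ l, v l * (β n l : ℤ)| := Int.one_le_abs h1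
      nlinarith [show (0 : ℤ) ≤ (E n : ℤ) by positivity]
    have h11 : ((n * (ζ n + ∑ i, e n i) : ℕ) : ℤ) < (E n : ℤ) := by exact_mod_cast hE n
    have h12 : (M : ℤ) * (ζ n + ∑ j, (e n j : ℤ)) ≤ n * (ζ n + ∑ j, (e n j : ℤ)) := by
      refine mul_le_mul_of_nonneg_right (by exact_mod_cast h3) (by positivity)
    push_cast at h11
    linarith

theorem spec_append {r k : ℕ} (y : Fin r → ℕ) (e : Fin k → ℕ) (m : Fin r → ℕ)
    (C : MvPolynomial (Fin k) ℤ) :
    spec (Fin.append y e) ((∏ l, MvPolynomial.X (Fin.castAdd k l) ^ m l) *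
      MvPolynomial.rename (Fin.natAdd r) C) = X ^ (∑ l, y l * m l) * spec e C := by
  unfold spec
  rw [map_mul, map_prod, MvPolynomial.aeval_rename]
  congr 1
  · rw [← Finset.prod_pow_eq_pow_sum]
    refine Finset.prod_congr rfl fun l _ => ?_
    rw [map_pow, MvPolynomial.aeval_X, Fin.append_left, ← pow_mul]
  · congr 1
    congr 1
    funext j
    simp [Fin.append_right]

theorem m1_X : m1 (X : ℤ[X]) = 1 := by
  unfold m1 toC
  rw [Polynomial.map_X]
  have h1 : 0 < (X : ℂ[X]).mahlerMeasure := Polynomial.mahlerMeasure_pos_of_ne_zero X_ne_zero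
  have h2 := Polynomial.logMahlerMeasure_X
  rw [Polynomial.logMahlerMeasure_eq_log_MahlerMeasure] at h2
  rw [← Real.exp_log h1, h2, Real.exp_zero]

theorem m1_X_pow (n : ℕ) : m1 ((X : ℤ[X]) ^ n) = 1 := by
  induction n with
  | zero =>
    have h := I1_m1_mul (1 : ℤ[X]) 1
    rw [mul_one] at h
    have h1 := I1_one_le_m1 (one_ne_zero : (1 : ℤ[X]) ≠ 0)
    rw [pow_zero]
    nlinarith
  | succ n ih => rw [pow_succ, I1_m1_mul, ih, m1_X, one_mul]

/-- The limit of a bounded sequence of measures of polynomials with few exponents of the first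
variable. -/
theorem core {N : ℕ} (kk : ℕ → ℕ) (A : ∀ n, Fin N → MvPolynomial (Fin (kk n)) ℤ)
    (s : ℕ → Fin N → ℕ) (hs : ∀ n, Function.Injective (s n)) (hA0 : ∀ n, ∃ i, A n i ≠ 0)
    (hA : ∀ n, Prim (A n)) (K : ℝ) (hK : ∀ n, mM (PS (A n) (s n)) ≤ K) (ε : ℕ → ℝ)
    (hε : ∀ n, 0 < ε n) :
    ∃ (K' : ℕ) (A' : Fin N → MvPolynomial (Fin K') ℤ) (n0 : ℕ) (e : ℕ → Fin (K' + 1) → ℕ)
      (q f : ℕ → ℝ), Prim A' ∧ (∃ i, A' i ≠ 0) ∧ (∀ i, A' i ≠ 0 → A n0 i ≠ 0) ∧
      AsympIndep (hyperfilter ℕ : Filter ℕ) e ∧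
      Tendsto (fun n => Real.log (q n)) (hyperfilter ℕ : Filter ℕ) (𝓝 0) ∧
      ∀ᶠ n in (hyperfilter ℕ : Filter ℕ), 1 ≤ q n ∧ |f n - mM (PS (A n) (s n))| < ε n ∧
        m1 (spec (e n) (PS A' (s n0))) = q n * f n := by
  classical
  obtain ⟨cN, hcN⟩ := approx_vec N
  choose a ha0 hap haA hhv hEex using fun n => hcN (kk n) (A n) (s n) (hs n) (hA0 n) (hA n) (ε n) (hε n)
  have hKh : ∀ n, hv (a n) ≤ Real.log (K + 1) + cN := by
    intro n
    refine (hhv n).trans ?_
    have h1 : 0 < mM (PS (A n) (s n)) := Real.exp_pos _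
    have h2 := Real.log_le_log (show 0 < mM (PS (A n) (s n)) + 1 by linarith)
      (show mM (PS (A n) (s n)) + 1 ≤ K + 1 by linarith [hK n])
    linarith
  obtain ⟨k, e, C, Q, hC0, hCp, he, hCa, hQ, hQlim⟩ := vec_compact a ha0 hap _ hKh
  -- the exponents of the first variable
  set σ : Fin N → Gam := fun i => ((fun n => (s n i : ℤ) : ℕ → ℤ) : Gam) with hσ
  obtain ⟨r, b, α, hr, hbpos, hind, hspan⟩ := exists_pos_basis (Finset.univ.image σ)
  set β : ℕ → Fin r → ℕ := expo b with hβ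
  have hβI := expo_indep b hbpos hind
  have hβev := expo_ev b hbpos
  have hcoord : ∀ᶠ n in (hyperfilter ℕ : Filter ℕ), ∀ i, ∑ l, α (σ i) l * (β n l : ℤ) = s n i := by
    have h1 := expo_coord b hbpos α (Finset.univ.image σ) hspan
    have h2 : ∀ᶠ n in (hyperfilter ℕ : Filter ℕ), ∀ i, rep (σ i) n = s n i := by
      rw [Filter.eventually_all]
      intro i
      have h3 := rep_spec (σ i)
      exact Filter.Germ.coe_eq.1 h3
    filter_upwards [h1, h2] with n h3 h4 i
    rw [← h4 i]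
    exact h3 (σ i) (Finset.mem_image_of_mem σ (Finset.mem_univ i))
  have hCa' : ∀ᶠ n in (hyperfilter ℕ : Filter ℕ), ∀ i, C i ≠ 0 → a n i ≠ 0 := by
    rw [Filter.eventually_all]
    intro i
    by_cases hi : C i = 0
    · exact Eventually.of_forall fun n h => absurd hi h
    · exact (hCa i hi).mono fun n h _ => h
  obtain ⟨n0, hn01, hn02⟩ := (hcoord.and hCa').exists
  set lam : Fin r → ℕ := β n0 with hlam
  set a0 : ℕ := ∑ i, ∑ l, (α (σ i) l).natAbs with ha0d
  set m : Fin N → Fin r → ℕ := fun i l => (α (σ i) l + (a0 : ℤ)).toNat with hm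
  have hm1 : ∀ i l, (m i l : ℤ) = α (σ i) l + a0 := by
    intro i l
    have h1 : (α (σ i) l).natAbs ≤ ∑ l, (α (σ i) l).natAbs :=
      Finset.single_le_sum (f := fun l => (α (σ i) l).natAbs) (fun _ _ => Nat.zero_le _)
        (Finset.mem_univ l)
    have h2 : ∑ l, (α (σ i) l).natAbs ≤ a0 :=
      Finset.single_le_sum (f := fun i => ∑ l, (α (σ i) l).natAbs) (fun _ _ => Nat.zero_le _)
        (Finset.mem_univ i)
    simp only [hm]
    exact Int.toNat_of_nonneg (by omega)
  -- the large exponents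
  set ζ : ℕ → ℕ := fun n => n * (∑ i, e n i) + 1 with hζ
  choose E hE1 hE2 using fun n => hEex n (n * (ζ n + ∑ i, e n i) + ζ n * (∑ l, lam l) + 1)
  set y : ℕ → Fin r → ℕ := fun n l => E n * β n l - lam l * ζ n with hy
  have hyev : ∀ᶠ n in (hyperfilter ℕ : Filter ℕ), ∀ l, (y n l : ℤ) = E n * β n l - lam l * ζ n := by
    filter_upwards [hβev] with n hn l
    have h1 : 1 ≤ β n l := (hn l).2
    have h2 : lam l * ζ n ≤ E n * β n l := by
      have h3 : lam l ≤ ∑ l, lam l :=
        Finset.single_le_sum (f := lam) (fun _ _ => Nat.zero_le _) (Finset.mem_univ l)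
      have h4 : lam l * ζ n ≤ ζ n * ∑ l, lam l := by
        rw [mul_comm]
        exact Nat.mul_le_mul_left _ h3
      have h5 := hE1 n
      have h6 : E n ≤ E n * β n l := Nat.le_mul_of_pos_right _ h1
      omega
    simp only [hy]
    rw [Nat.cast_sub h2]
    push_cast
    ring
  have hI := indep_final β hβI e he lam ζ E (fun n => by simp [hζ]) (fun n => by
    have := hE1 n
    omega) y hyev
  set es : ℕ → Fin (r + k) → ℕ := fun n => Fin.append (y n) (e n) with hes
  -- the coefficients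
  set B : Fin N → MvPolynomial (Fin (r + k)) ℤ := fun i =>
    (∏ l, MvPolynomial.X (Fin.castAdd k l) ^ m i l) * MvPolynomial.rename (Fin.natAdd r) (C i) with hB
  have hinjn : Function.Injective (Fin.natAdd r : Fin k → Fin (r + k)) :=
    Fin.natAdd_injective k r
  have hmon : ∀ m' : Fin r → ℕ,
      (∏ l, MvPolynomial.X (Fin.castAdd k l) ^ m' l : MvPolynomial (Fin (r + k)) ℤ) ≠ 0 := fun m' =>
    Finset.prod_ne_zero_iff.2 fun l _ => pow_ne_zero _ (MvPolynomial.X_ne_zero _)
  have hB0 : ∀ i, B i ≠ 0 ↔ C i ≠ 0 := by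
    intro i
    simp only [hB]
    constructor
    · intro h h0
      exact h (by rw [h0, map_zero, mul_zero])
    · intro h
      refine mul_ne_zero (hmon _) ?_
      intro h0
      exact h (MvPolynomial.rename_injective _ hinjn (by rw [h0, map_zero]))
  obtain ⟨i0, hi0⟩ := hC0
  obtain ⟨g, hg, A', hgA, hA'⟩ := exists_prim B ⟨i0, (hB0 i0).2 hi0⟩
  have hA'C : ∀ i, A' i ≠ 0 → C i ≠ 0 := by
    intro i hi
    rw [← hB0 i, hgA i]
    exact mul_ne_zero hg hi
  have hA'0 : A' i0 ≠ 0 := by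
    intro h0
    exact (hB0 i0).2 hi0 (by rw [hgA i0, h0, mul_zero])
  -- the common divisor is a divisor of a monomial
  have hgdvd : g ∣ ∏ l, MvPolynomial.X (Fin.castAdd k l) ^ (∑ i, m i l) := by
    have h1 : Prim (fun i => MvPolynomial.rename (Fin.natAdd r) (C i)) :=
      prim_rename (Fin.natAdd r) hinjn hCp ⟨i0, hi0⟩
    apply h1.dvd_of_forall
    intro i
    have h2 : g ∣ B i := ⟨A' i, hgA i⟩
    refine h2.trans ?_
    simp only [hB]
    refine mul_dvd_mul_right ?_ _
    refine Finset.prod_dvd_prod_of_dvd _ _ fun l _ => pow_dvd_pow _ ?_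
    exact Finset.single_le_sum (f := fun i => m i l) (fun _ _ => Nat.zero_le _) (Finset.mem_univ i)
  have hspecmon : ∀ n (m' : Fin r → ℕ),
      spec (es n) (∏ l, MvPolynomial.X (Fin.castAdd k l) ^ m' l) = X ^ (∑ l, y n l * m' l) := by
    intro n m'
    have h1 := spec_append (y n) (e n) m' (1 : MvPolynomial (Fin k) ℤ)
    rw [map_one, map_one, mul_one, mul_one] at h1
    exact h1
  have hg1 : ∀ n, m1 (spec (es n) g) = 1 := by
    intro n
    have h1 := map_dvd (spec (es n)) hgdvd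
    rw [hspecmon] at h1
    have h2 := m1_le_of_dvd (pow_ne_zero _ X_ne_zero) h1
    rw [m1_X_pow] at h2
    refine le_antisymm h2 (I1_one_le_m1 ?_)
    intro h0
    rw [h0, zero_dvd_iff] at h1
    exact pow_ne_zero _ X_ne_zero h1
  -- the main identity
  have hmain : ∀ᶠ n in (hyperfilter ℕ : Filter ℕ),
      spec (Fin.cons (ζ n) (es n) : Fin (r + k + 1) → ℕ) (PS B (s n0)) =
        X ^ (a0 * ∑ l, y n l) * (Q n * one (a n) (s n) (E n)) := by
    filter_upwards [hQ, hcoord, hyev] with n h1 h2 h3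
    rw [spec_PS]
    obtain ⟨cc, hcc⟩ : ∃ cc, cc = a0 * ∑ l, y n l := ⟨_, rfl⟩
    rw [← hcc]
    unfold one
    rw [Finset.mul_sum, Finset.mul_sum]
    refine Finset.sum_congr rfl fun i _ => ?_
    simp only [hB, hes]
    rw [spec_append, h1.2 i]
    have hexp : (∑ l, y n l * m i l) + ζ n * s n0 i = a0 * (∑ l, y n l) + E n * s n i := by
      have h4 : ((∑ l, y n l * m i l + ζ n * s n0 i : ℕ) : ℤ) =
          ((a0 * (∑ l, y n l) + E n * s n i : ℕ) : ℤ) := by
        push_cast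
        have h5 : ∑ l, (y n l : ℤ) * (m i l : ℤ) =
            E n * (∑ l, α (σ i) l * (β n l : ℤ)) - ζ n * (∑ l, α (σ i) l * (β n0 l : ℤ)) +
              a0 * ∑ l, (y n l : ℤ) := by
          rw [Finset.mul_sum, Finset.mul_sum, Finset.mul_sum, ← Finset.sum_sub_distrib,
            ← Finset.sum_add_distrib]
          refine Finset.sum_congr rfl fun l _ => ?_
          rw [hm1 i l, h3 l]
          ring
        rw [h5, h2 i, hn01 i]
        ring
      exact_mod_cast h4
    calc X ^ (∑ l, y n l * m i l) * (Q n * a n i) * X ^ (ζ n * s n0 i)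
        = X ^ ((∑ l, y n l * m i l) + ζ n * s n0 i) * (Q n * a n i) := by
          rw [pow_add]; ring
      _ = X ^ (cc + E n * s n i) * (Q n * a n i) := by rw [hexp, hcc]
      _ = _ := by rw [pow_add]; ring
  have hPS : PS B (s n0) = MvPolynomial.rename Fin.succ g * PS A' (s n0) := by
    unfold PS
    rw [Finset.mul_sum]
    refine Finset.sum_congr rfl fun i _ => ?_
    rw [hgA i, map_mul, mul_assoc]
  refine ⟨r + k, A', n0, _, fun n => m1 (Q n), fun n => m1 (one (a n) (s n) (E n)), hA',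
    ⟨i0, hA'0⟩, fun i hi => haA n0 i (hn02 i (hA'C i hi)), hI, hQlim, ?_⟩
  filter_upwards [hmain, hQ] with n h1 h2
  refine ⟨I1_one_le_m1 h2.1, hE2 n, ?_⟩
  have h3 : m1 (spec (Fin.cons (ζ n) (es n) : Fin (r + k + 1) → ℕ) (PS B (s n0))) =
      m1 (spec (Fin.cons (ζ n) (es n) : Fin (r + k + 1) → ℕ) (PS A' (s n0))) := by
    rw [hPS, map_mul, I1_m1_mul, spec_rename_succ, hg1 n, one_mul]
  rw [← h3, h1, I1_m1_mul, I1_m1_mul, m1_X_pow, one_mul]

end

end Pool.Agent.T9h56.MT
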