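import Pool.Agent.T9h56.MT.Vec
import Pool.Agent.H261R2.CM.K2a

/-!
# The height of the coefficient vector is bounded by the Mahler measure
-/

set_option autoImplicit false

namespace Pool.Agent.T9h56.MT

open Filter MeasureTheory Topology Pool.Agent.H261R2.CM
open Pool.Agent.H338R2.AS (es)

noncomputable section

theorem two_log (x : ℝ) : 2 * Real.log x = Real.log (1 + x ^ 2) - Real.log (1 + 1 / x ^ 2) := by
  by_cases hx : x = 0
  · rw [hx]; simp
  · have hx2 : 0 < x ^ 2 := by positivity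
    rw [← Real.log_div (by positivity) (by positivity)]
    have h : (1 + x ^ 2) / (1 + 1 / x ^ 2) = x ^ 2 := by
      field_simp
      ring
    rw [h, Real.log_pow]
    push_cast
    ring

theorem es_cont {k : ℕ} (c : Fin k → ℂ) (a : Fin k → ℤ) : Continuous (fun t : ℝ => ‖es c a t‖) := by
  unfold es
  fun_prop

theorem countable_ez (z : ℂ) : {t : ℝ | ez t = z}.Countable := by
  by_cases hz : ∃ s : ℝ, ez s = z
  · obtain ⟨s, rfl⟩ := hz
    refine (Set.countable_range fun n : ℤ => s + n).mono ?_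
    intro t ht
    simp only [Set.mem_ofPred_eq, ez] at ht
    rw [Complex.exp_eq_exp_iff_exists_int] at ht
    obtain ⟨n, hn⟩ := ht
    refine ⟨n, ?_⟩
    have hne : (2 * (Real.pi : ℂ) * Complex.I) ≠ 0 := Complex.two_pi_I_ne_zero
    have h3 : (t : ℂ) = s + n := by
      apply mul_left_cancel₀ hne
      rw [hn]
      ring
    simp only []
    exact_mod_cast h3.symm
  · have : {t : ℝ | ez t = z} = ∅ := by
      ext t
      simp only [Set.mem_ofPred_eq, Set.mem_empty_iff_false, iff_false]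
      exact fun h => hz ⟨t, h⟩
    rw [this]
    exact Set.countable_empty

/-- the value of a combination of powers of `ez u` -/
def val {N : ℕ} (c : Fin N → ℂ) (s : Fin N → ℕ) (u : ℝ) : ℂ := ∑ i, c i * ez u ^ s i

theorem val_eq {N : ℕ} (c : Fin N → ℂ) (s : Fin N → ℕ) (u : ℝ) :
    val c s u = es c (fun i => (s i : ℤ)) u := by
  unfold val es ez
  refine Finset.sum_congr rfl fun i _ => ?_
  rw [← Complex.exp_nat_mul]
  congr 2
  push_cast
  ring

theorem val_ae {N : ℕ} (c : Fin N → ℂ) (s : Fin N → ℕ) (hs : Function.Injective s) (hc : c ≠ 0) :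
    ∀ᵐ u : ℝ, val c s u ≠ 0 := by
  classical
  set p : Polynomial ℂ := ∑ i, Polynomial.C (c i) * Polynomial.X ^ s i with hp
  have hp0 : p ≠ 0 := by
    intro h0
    apply hc
    funext i
    have h1 : p.coeff (s i) = c i := by
      rw [hp, Polynomial.finsetSum_coeff, Finset.sum_eq_single_of_mem i (Finset.mem_univ i)]
      · rw [Polynomial.coeff_C_mul_X_pow, if_pos rfl]
      · intro j _ hj
        rw [Polynomial.coeff_C_mul_X_pow, if_neg]
        intro h
        exact hj (hs h.symm)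
    rw [← h1, h0]
    simp
  have hev : ∀ u, p.eval (ez u) = val c s u := by
    intro u
    rw [hp, Polynomial.eval_finsetSum]
    unfold val
    refine Finset.sum_congr rfl fun i _ => ?_
    simp
  have h1 : {u : ℝ | val c s u = 0} ⊆ ⋃ z ∈ (p.roots.toFinset : Set ℂ), {u : ℝ | ez u = z} := by
    intro u hu
    simp only [Set.mem_iUnion, Set.mem_ofPred_eq]
    refine ⟨ez u, ?_, rfl⟩
    rw [Finset.mem_coe, Multiset.mem_toFinset, Polynomial.mem_roots hp0, Polynomial.IsRoot, hev]
    exact hu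
  have h3 : {u : ℝ | val c s u = 0}.Countable :=
    ((Set.Countable.biUnion (Finset.countable_toSet _) fun z _ => countable_ez z)).mono h1
  rw [ae_iff]
  simpa using h3.measure_zero volume

/-- Uniform lower bound for the Mahler measure of sums of `N` monomials. -/
theorem val_lower (N : ℕ) : ∃ cN : ℝ, ∀ (c : Fin N → ℂ) (s : Fin N → ℕ), Function.Injective s → c ≠ 0 →
    IntervalIntegrable (fun u => Real.log ‖val c s u‖) volume 0 1 ∧
      Real.log ‖c‖ - cN ≤ ∫ u in (0:ℝ)..1, Real.log ‖val c s u‖ := by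
  rcases Nat.eq_zero_or_pos N with rfl | hN
  · exact ⟨0, fun c a _ hc => absurd (Subsingleton.elim _ _) hc⟩
  obtain ⟨r, rfl⟩ : ∃ r, N = r + 1 := ⟨N - 1, by omega⟩
  obtain ⟨η, _, h⟩ := log_defect r
  refine ⟨η 1 / 2, fun c s hs hc => ?_⟩
  have hM : 0 < ‖c‖ := norm_pos_iff.2 hc
  set c' : Fin (r + 1) → ℂ := fun i => ((‖c‖⁻¹ : ℝ) : ℂ) * c i with hc'
  have hnc : ‖c'‖ = 1 := by
    have h1 : c' = ((‖c‖⁻¹ : ℝ) : ℂ) • c := by
      funext i
      rw [hc', Pi.smul_apply, smul_eq_mul]
    rw [h1, norm_smul, Complex.norm_real, norm_inv, norm_norm, inv_mul_cancel₀ hM.ne']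
  have hc'0 : c' ≠ 0 := by
    intro h0
    rw [h0, norm_zero] at hnc
    exact zero_ne_one hnc
  have hj : ∃ j, 1 ≤ ‖c' j‖ := by
    by_contra hcon
    push Not at hcon
    have : ‖c'‖ < 1 := (pi_norm_lt_iff one_pos).2 hcon
    linarith
  have hinj : Function.Injective (fun i => (s i : ℤ)) := Nat.cast_injective.comp hs
  obtain ⟨h1, h2⟩ := h c' _ hinj hj 1 one_pos
  simp only [← val_eq] at h1 h2
  have hes : ∀ u, ‖val c s u‖ = ‖c‖ * ‖val c' s u‖ := by
    intro u
    have h3 : val c' s u = ((‖c‖⁻¹ : ℝ) : ℂ) * val c s u := by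
      unfold val
      rw [Finset.mul_sum]
      refine Finset.sum_congr rfl fun i _ => ?_
      rw [hc']
      ring
    rw [h3, norm_mul, Complex.norm_real, norm_inv, norm_norm, ← mul_assoc, mul_inv_cancel₀ hM.ne',
      one_mul]
  have hvc : Continuous (fun u => ‖val c' s u‖) := by
    simp only [val_eq]
    exact es_cont _ _
  have hcont1 : Continuous (fun u => Real.log (1 + ‖val c' s u‖ ^ 2)) :=
    Continuous.log (continuous_const.add (hvc.pow 2))
      fun u => (show 0 < 1 + ‖val c' s u‖ ^ 2 by positivity).ne'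
  have hfun : (fun u => Real.log ‖val c' s u‖) = fun u =>
      1 / 2 * (Real.log (1 + ‖val c' s u‖ ^ 2) - Real.log (1 + 1 / ‖val c' s u‖ ^ 2)) := by
    funext u
    have := two_log ‖val c' s u‖
    linarith
  have hint' : IntervalIntegrable (fun u => Real.log ‖val c' s u‖) volume 0 1 := by
    rw [hfun]
    exact ((hcont1.intervalIntegrable 0 1).sub h1).const_mul (1 / 2)
  have hval' : -(η 1) / 2 ≤ ∫ u in (0:ℝ)..1, Real.log ‖val c' s u‖ := by
    rw [hfun, intervalIntegral.integral_const_mul,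
      intervalIntegral.integral_sub (hcont1.intervalIntegrable 0 1) h1]
    have h4 : 0 ≤ ∫ u in (0:ℝ)..1, Real.log (1 + ‖val c' s u‖ ^ 2) :=
      intervalIntegral.integral_nonneg zero_le_one fun u _ =>
        Real.log_nonneg (by nlinarith [sq_nonneg ‖val c' s u‖])
    linarith
  have hae : ∀ᵐ u : ℝ, u ∈ Set.uIoc (0:ℝ) 1 →
      Real.log ‖val c s u‖ = Real.log ‖c‖ + Real.log ‖val c' s u‖ := by
    filter_upwards [val_ae c' s hs hc'0] with u hu _
    rw [hes u, Real.log_mul hM.ne' (norm_ne_zero_iff.2 hu)]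
  have hint : IntervalIntegrable (fun u => Real.log ‖val c s u‖) volume 0 1 := by
    have h3 := (intervalIntegrable_const (c := Real.log ‖c‖) (a := (0:ℝ)) (b := 1)
      (μ := volume)).add hint'
    refine h3.congr_ae ?_
    rw [EventuallyEq, ae_restrict_iff' measurableSet_uIoc]
    filter_upwards [hae] with u hu hm
    exact (hu hm).symm
  refine ⟨hint, ?_⟩
  have h5 : (∫ u in (0:ℝ)..1, Real.log ‖val c s u‖) =
      Real.log ‖c‖ + ∫ u in (0:ℝ)..1, Real.log ‖val c' s u‖ := by
    rw [intervalIntegral.integral_congr_ae hae, intervalIntegral.integral_add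
      intervalIntegrable_const hint']
    simp
  rw [h5]
  linarith

/-- a one-variable polynomial as a polynomial in the variable with number `0` of `Fin 1` -/
def toMv (A : Polynomial ℤ) : MvPolynomial (Fin 1) ℤ := Polynomial.aeval (MvPolynomial.X 0) A

theorem tv_toMv (A : Polynomial ℤ) (y : Fin 1 → ℝ) : tv (toMv A) y = ev1 A (y 0) := by
  have h : (J.tvh y).comp (Polynomial.aeval (R := ℤ) (MvPolynomial.X 0 : MvPolynomial (Fin 1) ℤ) :
      Polynomial ℤ →ₐ[ℤ] MvPolynomial (Fin 1) ℤ).toRingHom =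
      (Polynomial.evalRingHom (ez (y 0))).comp (Polynomial.mapRingHom (Int.castRingHom ℂ)) := by
    apply Polynomial.ringHom_ext
    · intro a
      simp [J.tvh]
    · simp [J.tvh, J.zz, ez]
  exact DFunLike.congr_fun h A

theorem spec_toMv (e : Fin 1 → ℕ) (he : e 0 = 1) (A : Polynomial ℤ) : spec e (toMv A) = A := by
  unfold spec toMv
  rw [← Polynomial.aeval_algHom_apply, MvPolynomial.aeval_X, he, pow_one,
    Polynomial.aeval_X_left_apply]

/-- the two-variable polynomial `∑ a_i(X_1) X_0 ^ s_i` -/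
def P2 {N : ℕ} (a : Fin N → Polynomial ℤ) (s : Fin N → ℕ) : MvPolynomial (Fin 2) ℤ :=
  PS (fun i => toMv (a i)) s

theorem toMv_ne {A : Polynomial ℤ} (hA : A ≠ 0) : toMv A ≠ 0 := by
  intro h
  apply hA
  rw [← spec_toMv (fun _ => 1) rfl A, h, map_zero]

theorem P2_ne {N : ℕ} (a : Fin N → Polynomial ℤ) (s : Fin N → ℕ) (hs : Function.Injective s)
    (ha : ∃ i, a i ≠ 0) : P2 a s ≠ 0 := by
  obtain ⟨i, hi⟩ := ha
  exact PS_ne_zero _ s hs ⟨i, toMv_ne hi⟩

theorem spec_P2 {N : ℕ} (E : ℕ) (a : Fin N → Polynomial ℤ) (s : Fin N → ℕ) :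
    spec (Fin.cons E (fun _ => 1) : Fin 2 → ℕ) (P2 a s) = ∑ i, a i * Polynomial.X ^ (E * s i) := by
  unfold P2
  rw [spec_PS]
  refine Finset.sum_congr rfl fun i _ => ?_
  rw [spec_toMv _ rfl]

theorem tv_P2 {N : ℕ} (a : Fin N → Polynomial ℤ) (s : Fin N → ℕ) (x : Fin 2 → ℝ) :
    tv (P2 a s) x = val (fun i => ev1 (a i) (x 1)) s (x 0) := by
  rw [J.tv_eq]
  unfold P2 PS val
  rw [map_sum]
  refine Finset.sum_congr rfl fun i _ => ?_
  rw [map_mul, map_pow]
  have h1 : J.tvh x (MvPolynomial.rename Fin.succ (toMv (a i))) = ev1 (a i) (x 1) := by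
    rw [← J.tv_eq, J.tv_rename, tv_toMv]
    rfl
  have h2 : J.tvh x (MvPolynomial.X 0) = ez (x 0) := by
    simp [J.tvh, J.zz, ez]
  rw [h1, h2]

theorem integral_fin_one (G : ℝ → ℝ) :
    ∫ y in Set.Icc (0 : Fin 1 → ℝ) 1, G (y 0) = ∫ t in (0:ℝ)..1, G t := by
  have h := (volume_preserving_funUnique (Fin 1) ℝ).setIntegral_preimage_emb
    (MeasurableEquiv.measurableEmbedding _) G (Set.Icc 0 1)
  rw [intervalIntegral.integral_of_le zero_le_one, ← integral_Icc_eq_integral_Ioc, ← h]
  have h1 : (MeasurableEquiv.funUnique (Fin 1) ℝ) ⁻¹' (Set.Icc 0 1) = Set.Icc (0 : Fin 1 → ℝ) 1 := by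
    ext y
    simp only [Set.mem_preimage, Set.mem_Icc, MeasurableEquiv.funUnique_apply, Pi.le_def]
    constructor
    · rintro ⟨h1, h2⟩
      exact ⟨fun i => by rw [Subsingleton.elim i default]; exact h1,
        fun i => by rw [Subsingleton.elim i default]; exact h2⟩
    · rintro ⟨h1, h2⟩
      exact ⟨h1 default, h2 default⟩
  rw [h1]
  rfl

theorem integrable_fin_one (G : ℝ → ℝ) (hG : IntervalIntegrable G volume 0 1) :
    IntegrableOn (fun y : Fin 1 → ℝ => G (y 0)) (Set.Icc 0 1) := by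
  have h := (volume_preserving_funUnique (Fin 1) ℝ).integrableOn_comp_preimage
    (MeasurableEquiv.measurableEmbedding _) (f := G) (s := Set.Icc 0 1)
  have h1 : (MeasurableEquiv.funUnique (Fin 1) ℝ) ⁻¹' (Set.Icc 0 1) = Set.Icc (0 : Fin 1 → ℝ) 1 := by
    ext y
    simp only [Set.mem_preimage, Set.mem_Icc, MeasurableEquiv.funUnique_apply, Pi.le_def]
    constructor
    · rintro ⟨h1, h2⟩
      exact ⟨fun i => by rw [Subsingleton.elim i default]; exact h1,
        fun i => by rw [Subsingleton.elim i default]; exact h2⟩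
    · rintro ⟨h1, h2⟩
      exact ⟨h1 default, h2 default⟩
  rw [h1] at h
  rw [intervalIntegrable_iff_integrableOn_Ioc_of_le zero_le_one, ← integrableOn_Icc_iff_integrableOn_Ioc] at hG
  exact h.2 hG

/-- The height of the coefficients is bounded by the logarithm of the Mahler measure. -/
theorem hv_le (N : ℕ) : ∃ cN : ℝ, ∀ (a : Fin N → Polynomial ℤ) (s : Fin N → ℕ),
    Function.Injective s → (∃ i, a i ≠ 0) → hv a - cN ≤ Real.log (mM (P2 a s)) := by
  obtain ⟨cN, hcN⟩ := val_lower N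
  refine ⟨cN, fun a s hs ha => ?_⟩
  obtain ⟨i0, hi0⟩ := ha
  have hP := P2_ne a s hs ⟨i0, hi0⟩
  set g : (Fin 2 → ℝ) → ℝ := fun x => Real.log ‖tv (P2 a s) x‖ with hg
  obtain ⟨h1, h2⟩ := K8.cube_slice (0 : Fin 2) g (F_integrable hP)
  have h3 : Real.log (mM (P2 a s)) = ∫ x in Set.Icc (0 : Fin 2 → ℝ) 1, g x := by
    unfold mM; rw [Real.log_exp]
  set G : (Fin 1 → ℝ) → ℝ := fun y => Real.log (vn a (y 0)) - cN with hG
  have hvI := hv_integrable a i0 hi0
  have hGi : IntegrableOn G (Set.Icc 0 1) := by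
    refine Integrable.sub (integrable_fin_one (fun t => Real.log (vn a t)) hvI) ?_
    exact integrable_const _
  have hGt := K8.integrable_tail (0 : Fin 2) G hGi
  have hGv := K8.integral_tail (0 : Fin 2) G
  have hGval : ∫ y in Set.Icc (0 : Fin 1 → ℝ) 1, G y = hv a - cN := by
    rw [hG]
    have := integral_fin_one (fun t => Real.log (vn a t) - cN)
    rw [this, intervalIntegral.integral_sub hvI intervalIntegrable_const]
    unfold hv
    simp
  rw [h3, ← h2, ← hGval, ← hGv]
  refine setIntegral_mono_ae_restrict hGt h1 ?_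
  have hz := F_zero_null (J.rename_ne_zero (toMv_ne hi0) : MvPolynomial.rename Fin.succ (toMv (a i0)) ≠ 0)
  filter_upwards [hz] with x hx
  rw [J.tv_rename, tv_toMv] at hx
  have hx1 : (fun i => ev1 (a i) (x 1) : Fin N → ℂ) ≠ 0 := by
    intro h
    exact hx (congrFun h i0)
  obtain ⟨_, h5⟩ := hcN _ s hs hx1
  have h6 : (∫ w in Set.Icc (0:ℝ) 1, g (Function.update x 0 w)) =
      ∫ u in (0:ℝ)..1, Real.log ‖val (fun i => ev1 (a i) (x 1)) s u‖ := by
    rw [intervalIntegral.integral_of_le zero_le_one, ← integral_Icc_eq_integral_Ioc]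
    refine integral_congr_ae (Eventually.of_forall fun w => ?_)
    simp only [hg]
    rw [tv_P2]
    have e1 : Function.update x 0 w 1 = x 1 := Function.update_of_ne (by decide) _ _
    have e0 : Function.update x 0 w 0 = w := Function.update_self _ _ _
    rw [e1, e0]
  rw [h6]
  refine le_trans (le_of_eq ?_) h5
  simp only [hG]
  rfl

end

end Pool.Agent.T9h56.MT
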