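import Mathlib

/-!
# Primitive vectors in a factorial ring
-/

set_option autoImplicit false

namespace Pool.Agent.T9h56.MT

/-- The only common divisors of the entries are the units. -/
def Prim {R ι : Type*} [CommMonoid R] (v : ι → R) : Prop := ∀ π : R, (∀ i, π ∣ v i) → IsUnit π

section

variable {R ι : Type*} [CommRing R] [IsDomain R] [UniqueFactorizationMonoid R] [Fintype ι]

theorem exists_prim (v : ι → R) (h : ∃ i, v i ≠ 0) :
    ∃ g : R, g ≠ 0 ∧ ∃ w : ι → R, (∀ i, v i = g * w i) ∧ Prim w := by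
  classical
  let _ : StrongNormalizationMonoid R := UniqueFactorizationMonoid.strongNormalizationMonoid
  let _ : NormalizedGCDMonoid R := UniqueFactorizationMonoid.toNormalizedGCDMonoid R
  obtain ⟨i0, hi0⟩ := h
  obtain ⟨w, hw, hw1⟩ := Finset.extract_gcd v (s := Finset.univ) ⟨i0, Finset.mem_univ _⟩
  refine ⟨Finset.univ.gcd v, ?_, w, fun i => hw i (Finset.mem_univ _), fun π hπ => ?_⟩
  · intro h0
    apply hi0
    rw [hw i0 (Finset.mem_univ _), h0, zero_mul]
  · have h1 : π ∣ Finset.univ.gcd w := Finset.dvd_gcd fun i _ => hπ i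
    rw [hw1] at h1
    exact isUnit_of_dvd_one h1

theorem Prim.dvd_of_forall {v : ι → R} (hv : Prim v) {c d : R} (h : ∀ i, d ∣ c * v i) : d ∣ c := by
  classical
  let _ : StrongNormalizationMonoid R := UniqueFactorizationMonoid.strongNormalizationMonoid
  let _ : NormalizedGCDMonoid R := UniqueFactorizationMonoid.toNormalizedGCDMonoid R
  have h1 : d ∣ Finset.univ.gcd (fun i => c * v i) := Finset.dvd_gcd fun i _ => h i
  have h2 : IsUnit (Finset.univ.gcd v) := hv _ fun i => Finset.gcd_dvd (Finset.mem_univ i)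
  have h3 := h1.trans (Finset.gcd_mul_left' (s := Finset.univ) (f := v) c).dvd
  rcases h2 with ⟨u, hu⟩
  rw [← hu] at h3
  exact (Units.dvd_mul_right).1 h3

end

end Pool.Agent.T9h56.MT
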