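import Pool.Agent.H261R2.CM.K8
import Pool.Agent.T9h56.MT.Prim

/-!
# Polynomials as combinations of powers of the first variable
-/

set_option autoImplicit false

namespace Pool.Agent.T9h56.MT

open MvPolynomial Pool.Agent.H261R2.CM

noncomputable section

variable {k : ℕ} {ι : Type} [Fintype ι]

/-- the polynomial `∑ A_i X_0 ^ s_i` -/
def PS (A : ι → MvPolynomial (Fin k) ℤ) (s : ι → ℕ) : MvPolynomial (Fin (k + 1)) ℤ :=
  ∑ i, rename Fin.succ (A i) * X 0 ^ s i

theorem fse_rename (q : MvPolynomial (Fin k) ℤ) :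
    finSuccEquiv ℤ k (rename Fin.succ q) = Polynomial.C q := by
  have h : ((finSuccEquiv ℤ k : MvPolynomial (Fin (k + 1)) ℤ →ₐ[ℤ] Polynomial (MvPolynomial (Fin k) ℤ)).comp
      (rename Fin.succ)).toRingHom = (Polynomial.C : MvPolynomial (Fin k) ℤ →+* _) := by
    apply MvPolynomial.ringHom_ext
    · intro a
      simp
    · intro i
      simp [finSuccEquiv_X_succ]
  exact DFunLike.congr_fun h q

theorem fse_PS (A : ι → MvPolynomial (Fin k) ℤ) (s : ι → ℕ) :
    finSuccEquiv ℤ k (PS A s) = ∑ i, Polynomial.C (A i) * Polynomial.X ^ s i := by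
  unfold PS
  rw [map_sum]
  refine Finset.sum_congr rfl fun i _ => ?_
  rw [map_mul, map_pow, finSuccEquiv_X_zero, fse_rename]

theorem coeff_PS (A : ι → MvPolynomial (Fin k) ℤ) (s : ι → ℕ) (hs : Function.Injective s) (i : ι) :
    (finSuccEquiv ℤ k (PS A s)).coeff (s i) = A i := by
  classical
  rw [fse_PS, Polynomial.finsetSum_coeff, Finset.sum_eq_single_of_mem i (Finset.mem_univ i)]
  · rw [Polynomial.coeff_C_mul_X_pow, if_pos rfl]
  · intro j _ hj
    rw [Polynomial.coeff_C_mul_X_pow, if_neg]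
    intro h
    exact hj (hs h.symm)

theorem coeff_PS_ne (A : ι → MvPolynomial (Fin k) ℤ) (s : ι → ℕ) (m : ℕ) (hm : ∀ i, s i ≠ m) :
    (finSuccEquiv ℤ k (PS A s)).coeff m = 0 := by
  classical
  rw [fse_PS, Polynomial.finsetSum_coeff]
  refine Finset.sum_eq_zero fun i _ => ?_
  rw [Polynomial.coeff_C_mul_X_pow, if_neg]
  exact fun h => hm i h.symm

theorem PS_ne_zero (A : ι → MvPolynomial (Fin k) ℤ) (s : ι → ℕ) (hs : Function.Injective s)
    (hA : ∃ i, A i ≠ 0) : PS A s ≠ 0 := by
  intro h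
  obtain ⟨i, hi⟩ := hA
  apply hi
  rw [← coeff_PS A s hs i, h, map_zero, Polynomial.coeff_zero]

theorem dvd_of_dvd_PS {A : ι → MvPolynomial (Fin k) ℤ} {s : ι → ℕ} (hs : Function.Injective s)
    {q : MvPolynomial (Fin k) ℤ} (h : rename Fin.succ q ∣ PS A s) (i : ι) : q ∣ A i := by
  have h1 := map_dvd (finSuccEquiv ℤ k) h
  rw [fse_rename, Polynomial.C_dvd_iff_dvd_coeff] at h1
  have h2 := h1 (s i)
  rwa [coeff_PS A s hs] at h2

theorem PS_prim {A : ι → MvPolynomial (Fin k) ℤ} (hA : Prim A) {s : ι → ℕ}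
    (hs : Function.Injective s) : ∀ Q, Q ∣ PS A s → Q.degreeOf 0 = 0 → IsUnit Q := by
  intro Q hQ h0
  obtain ⟨q, rfl⟩ := J.exists_rename h0
  exact (hA q fun i => dvd_of_dvd_PS hs hQ i).map (rename Fin.succ)

theorem prim_of_PS {A : ι → MvPolynomial (Fin k) ℤ} {s : ι → ℕ}
    (h : ∀ Q, Q ∣ PS A s → Q.degreeOf 0 = 0 → IsUnit Q) : Prim A := by
  intro π hπ
  have h1 : rename Fin.succ π ∣ PS A s := by
    unfold PS
    exact Finset.dvd_sum fun i _ => dvd_mul_of_dvd_left (map_dvd _ (hπ i)) _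
  have h2 := (h _ h1 (J.degreeOf_zero_rename π)).map J.retr
  rwa [J.retr_rename] at h2

/-- Every polynomial with few exponents of the first variable has this form. -/
theorem exists_PS (F : MvPolynomial (Fin (k + 1)) ℤ) (S : Finset ℕ) (hS : ∀ d ∈ F.support, d 0 ∈ S)
    (N : ℕ) (hN : S.card ≤ N) :
    ∃ (A : Fin N → MvPolynomial (Fin k) ℤ) (s : Fin N → ℕ), Function.Injective s ∧ F = PS A s ∧
      ∀ i, A i ≠ 0 → s i ∈ S := by
  classical
  obtain ⟨T, hT, hTc⟩ := Infinite.exists_superset_card_eq S N hN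
  set s : Fin N → ℕ := fun i => T.orderEmbOfFin hTc i with hs
  have hinj : Function.Injective s := (T.orderEmbOfFin hTc).injective
  have hcoef : ∀ m, m ∉ S → (finSuccEquiv ℤ k F).coeff m = 0 := by
    intro m hm
    by_contra h
    have h1 : m ∈ (finSuccEquiv ℤ k F).support := Polynomial.mem_support_iff.2 h
    rw [support_finSuccEquiv] at h1
    obtain ⟨d, hd, rfl⟩ := Finset.mem_image.1 h1
    exact hm (hS d hd)
  refine ⟨fun i => (finSuccEquiv ℤ k F).coeff (s i), s, hinj, ?_, fun i hi => ?_⟩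
  · apply (finSuccEquiv ℤ k).injective
    ext1 m
    by_cases hm : ∃ i, s i = m
    · obtain ⟨i, rfl⟩ := hm
      rw [coeff_PS _ s hinj]
    · push Not at hm
      rw [coeff_PS_ne _ s m hm]
      apply hcoef
      intro hmS
      have h1 : m ∈ Set.range s := by
        rw [hs]
        rw [Finset.range_orderEmbOfFin]
        exact hT hmS
      obtain ⟨i, hi⟩ := h1
      exact hm i hi
  · by_contra h
    exact hi (hcoef _ h)

theorem support_PS (A : ι → MvPolynomial (Fin k) ℤ) (s : ι → ℕ) (S : Set ℕ)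
    (hS : ∀ i, A i ≠ 0 → s i ∈ S) : ∀ d ∈ (PS A s).support, d 0 ∈ S := by
  classical
  intro d hd
  have h1 : d 0 ∈ (finSuccEquiv ℤ k (PS A s)).support := by
    rw [support_finSuccEquiv]
    exact Finset.mem_image.2 ⟨d, hd, rfl⟩
  rw [Polynomial.mem_support_iff, fse_PS, Polynomial.finsetSum_coeff] at h1
  obtain ⟨i, _, hi⟩ := Finset.exists_ne_zero_of_sum_ne_zero h1
  rw [Polynomial.coeff_C_mul_X_pow] at hi
  split_ifs at hi with h2
  · rw [h2]
    exact hS i hi
  · exact absurd rfl hi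

theorem spec_PS (E : ℕ) (e : Fin k → ℕ) (A : ι → MvPolynomial (Fin k) ℤ) (s : ι → ℕ) :
    spec (Fin.cons E e : Fin (k + 1) → ℕ) (PS A s) =
      ∑ i, spec e (A i) * Polynomial.X ^ (E * s i) := by
  unfold PS spec
  rw [map_sum]
  refine Finset.sum_congr rfl fun i _ => ?_
  rw [map_mul, map_pow, aeval_X, Fin.cons_zero, ← pow_mul, aeval_rename]
  congr 1

/-- primitive vectors stay primitive under an injective renaming of the variables -/
theorem prim_rename {K : ℕ} (f : Fin k → Fin K) (hf : Function.Injective f)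
    {A : ι → MvPolynomial (Fin k) ℤ} (hA : Prim A) (hA0 : ∃ i, A i ≠ 0) :
    Prim (fun i => rename f (A i)) := by
  classical
  intro π hπ
  obtain ⟨i0, hi0⟩ := hA0
  have hne : rename f (A i0) ≠ 0 := by
    intro h0
    exact hi0 (rename_injective _ hf (by rw [h0, map_zero]))
  have hvars : (π.vars : Set (Fin K)) ⊆ Set.range f := by
    intro l hl
    by_contra hr
    have h1 : degreeOf l (rename f (A i0)) = 0 := by
      by_contra h
      have h1 : ∃ m ∈ (rename f (A i0)).support, m l ≠ 0 := by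
        by_contra h2
        push Not at h2
        apply h
        apply Nat.le_zero.1
        exact degreeOf_le_iff.2 fun m hm => (h2 m hm).le
      obtain ⟨m, hm, hm0⟩ := h1
      have h3 : l ∈ (rename f (A i0)).vars := by
        rw [mem_vars_iff_mem_support]
        exact ⟨m, hm, Finsupp.mem_support_iff.2 hm0⟩
      have h4 := vars_rename f (A i0) h3
      rw [Finset.mem_image] at h4
      obtain ⟨j, _, hj⟩ := h4
      exact hr ⟨j, hj⟩
    have h2 := J.degreeOf_zero_of_dvd hne (hπ i0) l h1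
    rw [Finset.mem_coe, mem_vars_iff_mem_support] at hl
    obtain ⟨d, hd, hdl⟩ := hl
    rw [Finsupp.mem_support_iff] at hdl
    have := monomial_le_degreeOf l hd
    omega
  obtain ⟨π₀, rfl⟩ := exists_rename_eq_of_vars_subset_range π f hf hvars
  have h3 : IsUnit π₀ := hA π₀ fun i => by
    have h4 := map_dvd (killCompl hf) (hπ i)
    rwa [killCompl_rename_app, killCompl_rename_app] at h4
  exact h3.map (rename f)

end

end Pool.Agent.T9h56.MT
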