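import Pool.Agent.T9h56.MT.Common
import Pool.Agent.T9h56.MT.Poly

/-!
# Common divisors of the specialisations of a primitive vector
-/

set_option autoImplicit false

namespace Pool.Agent.T9h56.MT

open Polynomial Filter MeasureTheory Topology Pool.Agent.H261R2.CM

noncomputable section

/-- adding a much larger exponent -/
theorem indep_cons {k : ℕ} (𝓕 : Filter ℕ) (h𝓕 : 𝓕 ≤ atTop) (e : ℕ → Fin k → ℕ)
    (he : AsympIndep 𝓕 e) (E : ℕ → ℕ) (hE : ∀ᶠ n in 𝓕, n * (∑ i, e n i) < E n) :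
    AsympIndep 𝓕 (fun n => (Fin.cons (E n) (e n) : Fin (k + 1) → ℕ)) := by
  intro s hs
  by_cases h0 : s 0 = 0
  · have h1 : Fin.tail s ≠ 0 := by
      intro h
      apply hs
      rw [← Fin.cons_self_tail s, h, h0]
      funext i
      refine Fin.cases ?_ (fun j => ?_) i
      · simp
      · simp
    filter_upwards [he _ h1] with n hn
    rw [Fin.sum_univ_succ, h0, zero_mul, zero_add]
    simpa [Fin.tail] using hn
  · have hn0 : ∀ᶠ n : ℕ in 𝓕, (∑ i, (s i).natAbs) ≤ n := h𝓕 (eventually_ge_atTop _)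
    filter_upwards [hE, hn0] with n hn hn1
    rw [Fin.sum_univ_succ]
    simp only [Fin.cons_zero, Fin.cons_succ]
    intro hcon
    have h1 : |s 0 * (E n : ℤ)| ≤ n * ∑ i, (e n i : ℤ) := by
      have h2 : s 0 * (E n : ℤ) = -∑ i : Fin k, s i.succ * (e n i : ℤ) := by linarith
      rw [h2, abs_neg]
      refine (Finset.abs_sum_le_sum_abs _ _).trans ?_
      rw [Finset.mul_sum]
      refine Finset.sum_le_sum fun i _ => ?_
      rw [abs_mul]
      have h3 : |s i.succ| ≤ (n : ℤ) := by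
        rw [Int.abs_eq_natAbs]
        have : (s i.succ).natAbs ≤ ∑ i, (s i).natAbs :=
          Finset.single_le_sum (f := fun i => (s i).natAbs) (fun _ _ => Nat.zero_le _)
            (Finset.mem_univ _)
        exact_mod_cast this.trans hn1
      have h4 : |(e n i : ℤ)| = (e n i : ℤ) := abs_of_nonneg (by positivity)
      rw [h4]
      exact mul_le_mul_of_nonneg_right h3 (by positivity)
    have h5 : (E n : ℤ) ≤ |s 0 * (E n : ℤ)| := by
      rw [abs_mul, abs_of_nonneg (show (0 : ℤ) ≤ (E n : ℤ) by positivity)]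
      have : 1 ≤ |s 0| := Int.one_le_abs h0
      nlinarith [show (0 : ℤ) ≤ (E n : ℤ) by positivity]
    have h6 : ((n * ∑ i, e n i : ℕ) : ℤ) < (E n : ℤ) := by exact_mod_cast hn
    push_cast at h6
    linarith

/-- the Mahler measure of a divisor is not larger -/
theorem m1_le_of_dvd {A B : ℤ[X]} (hB : B ≠ 0) (h : A ∣ B) : m1 A ≤ m1 B := by
  obtain ⟨R, rfl⟩ := h
  rw [I1_m1_mul]
  have h1 := I1_one_le_m1 (right_ne_zero_of_mul hB)
  have h2 := I1_one_le_m1 (left_ne_zero_of_mul hB)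
  nlinarith

/-- the companion of a polynomial in the proof of `K8` -/
theorem spec_gsub {k : ℕ} (E : ℕ) (e : Fin (k + 1) → ℕ) (F : MvPolynomial (Fin (k + 1)) ℤ) :
    spec (Fin.cons E e : Fin (k + 2) → ℕ) (K8.gsub 0 F) =
      spec (Fin.cons (e 0 + E) (Fin.tail e) : Fin (k + 1) → ℕ) F := by
  unfold spec K8.gsub
  rw [← AlgHom.comp_apply]
  congr 1
  apply MvPolynomial.algHom_ext
  intro i
  rw [AlgHom.comp_apply, MvPolynomial.aeval_X, MvPolynomial.aeval_X]
  refine Fin.cases ?_ (fun j => ?_) i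
  · simp [pow_add]
  · rw [if_neg (Fin.succ_ne_zero j), MvPolynomial.aeval_X]
    simp [Fin.tail]

theorem spec_rename_succ {k : ℕ} (E : ℕ) (e : Fin k → ℕ) (F : MvPolynomial (Fin k) ℤ) :
    spec (Fin.cons E e : Fin (k + 1) → ℕ) (MvPolynomial.rename Fin.succ F) = spec e F := by
  unfold spec
  rw [MvPolynomial.aeval_rename]
  congr 1

/-- The common divisors of the specialisations of a primitive vector have small measure. -/
theorem gcd_lim {k N : ℕ} (C : Fin N → MvPolynomial (Fin k) ℤ) (hC0 : ∃ i, C i ≠ 0) (hC : Prim C)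
    (e : ℕ → Fin k → ℕ) (he : AsympIndep (hyperfilter ℕ : Filter ℕ) e) (Q : ℕ → ℤ[X])
    (hQ : ∀ᶠ n in (hyperfilter ℕ : Filter ℕ), Q n ≠ 0 ∧ ∀ i, Q n ∣ spec (e n) (C i)) :
    Tendsto (fun n => Real.log (m1 (Q n))) (hyperfilter ℕ : Filter ℕ) (𝓝 0) := by
  classical
  obtain ⟨i0, hi0⟩ := hC0
  -- the polynomial
  set A : Fin (N + 1) → MvPolynomial (Fin k) ℤ := Fin.cons (C i0) C with hA
  have hAprim : Prim A := by
    intro π hπ
    apply hC π
    intro i
    have := hπ i.succ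
    rwa [hA, Fin.cons_succ] at this
  set s : Fin (N + 1) → ℕ := fun i => (i : ℕ) with hs
  have hsinj : Function.Injective s := Fin.val_injective
  set F : MvPolynomial (Fin (k + 1)) ℤ := PS A s with hF
  have hA0 : A 0 ≠ 0 := by rw [hA, Fin.cons_zero]; exact hi0
  have hF0 : F ≠ 0 := PS_ne_zero A s hsinj ⟨0, hA0⟩
  have hX : ¬ MvPolynomial.X 0 ∣ F := by
    intro h
    have h1 := map_dvd (MvPolynomial.finSuccEquiv ℤ k) h
    rw [MvPolynomial.finSuccEquiv_X_zero, Polynomial.X_dvd_iff] at h1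
    have h2 := coeff_PS A s hsinj 0
    have h3 : s 0 = 0 := rfl
    rw [h3, ← hF, h1] at h2
    exact hA0 h2.symm
  have hrel := K8.relPrime_gsub (i := 0) hF0 hX (PS_prim hAprim hsinj)
  -- the exponents
  set E1 : ℕ → ℕ := fun n => n * (∑ i, e n i) + 1 with hE1
  set e1 : ℕ → Fin (k + 1) → ℕ := fun n => Fin.cons (E1 n) (e n) with he1
  have hI1 : AsympIndep (hyperfilter ℕ : Filter ℕ) e1 :=
    indep_cons _ I2_hyper_le e he E1 (Eventually.of_forall fun n => by simp [hE1])
  set E2 : ℕ → ℕ := fun n => n * (∑ i, e1 n i) + 1 with hE2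
  set e2 : ℕ → Fin (k + 1 + 1) → ℕ := fun n => Fin.cons (E2 n) (e1 n) with he2
  have hI2 : AsympIndep (hyperfilter ℕ : Filter ℕ) e2 :=
    indep_cons _ I2_hyper_le e1 hI1 E2 (Eventually.of_forall fun n => by simp [hE2])
  set P1 := MvPolynomial.rename Fin.succ F with hP1
  set P2 := K8.gsub 0 F with hP2
  have hP10 : P1 ≠ 0 := J.rename_ne_zero hF0
  have hP20 : P2 ≠ 0 := K8.gsub_ne_zero hX
  -- reduced factors
  have hex : ∀ n, ∃ A B : ℤ[X], A ≠ 0 ∧ B ≠ 0 ∧ IsRelPrime A B ∧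
      (spec (e2 n) P1 ≠ 0 → spec (e2 n) P2 ≠ 0 → spec (e2 n) P2 * A = spec (e2 n) P1 * B) := by
    intro n
    by_cases h1 : spec (e2 n) P1 ≠ 0 ∧ spec (e2 n) P2 ≠ 0
    · obtain ⟨A, B, Q, hAB, hA, hB⟩ := UniqueFactorizationMonoid.exists_reduced_factors
        (spec (e2 n) P1) h1.1 (spec (e2 n) P2)
      refine ⟨A, B, ?_, ?_, hAB, fun _ _ => ?_⟩
      · rintro rfl
        exact h1.1 (by rw [← hA, mul_zero])
      · rintro rfl
        exact h1.2 (by rw [← hB, mul_zero])
      · rw [← hA, ← hB]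
        ring
    · exact ⟨1, 1, one_ne_zero, one_ne_zero, isRelPrime_one_left, fun h2 h3 => absurd ⟨h2, h3⟩ h1⟩
  choose A' B' hA' hB' hAB' hrel' using hex
  have hev1 := spec_ne_zero _ e2 hI2 P1 hP10
  have hev2 := spec_ne_zero _ e2 hI2 P2 hP20
  obtain ⟨Q', hQ'1, hQ'2⟩ := limit_general P1 P2 hP10 hP20 hrel (hyperfilter ℕ) e2 hI2 A' B' hA' hB'
    hAB' (by
      filter_upwards [hev1, hev2] with n h1 h2
      exact hrel' n h1 h2)
  refine tendsto_of_tendsto_of_tendsto_of_le_of_le' tendsto_const_nhds hQ'2 ?_ ?_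
  · filter_upwards [hQ] with n hn
    exact Real.log_nonneg (I1_one_le_m1 hn.1)
  · filter_upwards [hQ, hQ'1, hev1] with n h1 h2 h3
    have hdA : ∀ i, Q n ∣ spec (e n) (A i) := by
      intro i
      refine Fin.cases ?_ (fun j => ?_) i
      · rw [hA, Fin.cons_zero]; exact h1.2 i0
      · rw [hA, Fin.cons_succ]; exact h1.2 j
    have hd1 : Q n ∣ spec (e2 n) P1 := by
      rw [he2, hP1, spec_rename_succ, he1, hF, spec_PS]
      exact Finset.dvd_sum fun i _ => dvd_mul_of_dvd_left (hdA i) _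
    have hd2 : Q n ∣ spec (e2 n) P2 := by
      rw [he2, hP2, spec_gsub, hF]
      have h4 : (Fin.tail (e1 n) : Fin k → ℕ) = e n := by
        rw [he1]
        exact Fin.tail_cons _ _
      rw [h4, spec_PS]
      exact Finset.dvd_sum fun i _ => dvd_mul_of_dvd_left (hdA i) _
    have hd3 : Q n ∣ Q' n := by
      have hv : Prim (![A' n, B' n]) := by
        intro π hπ
        exact hAB' n (hπ 0) (hπ 1)
      apply hv.dvd_of_forall
      intro i
      fin_cases i
      · change Q n ∣ Q' n * A' n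
        rw [← h2.2.1]
        exact hd1
      · change Q n ∣ Q' n * B' n
        rw [← h2.2.2]
        exact hd2
    have h5 := m1_le_of_dvd h2.1 hd3
    have h6 := I1_one_le_m1 h1.1
    exact Real.log_le_log (by linarith) h5

end

end Pool.Agent.T9h56.MT
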