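import Pool.Agent.T9h56.MT.Lim

/-!
# Compactness for primitive vectors of polynomials of bounded height
-/

set_option autoImplicit false

namespace Pool.Agent.T9h56.MT

open Polynomial Filter MeasureTheory Topology Pool.Agent.H261R2.CM

noncomputable section

/-- the sup norm of the vector of the values -/
def vn {N : ℕ} (a : Fin N → ℤ[X]) (t : ℝ) : ℝ := ‖(fun i => ev1 (a i) t : Fin N → ℂ)‖

/-- the height of a vector of polynomials -/
def hv {N : ℕ} (a : Fin N → ℤ[X]) : ℝ := ∫ t in (0:ℝ)..1, Real.log (vn a t)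

theorem vn_continuous {N : ℕ} (a : Fin N → ℤ[X]) : Continuous (vn a) := by
  unfold vn
  exact (continuous_pi fun i => D_continuous_ev1 (a i)).norm

theorem le_vn {N : ℕ} (a : Fin N → ℤ[X]) (i : Fin N) (t : ℝ) : ‖ev1 (a i) t‖ ≤ vn a t :=
  norm_le_pi_norm (fun i => ev1 (a i) t : Fin N → ℂ) i

theorem int_log_of_le {f g : ℝ → ℝ} (hf : IntervalIntegrable (fun t => Real.log (f t)) volume 0 1)
    (hfg : ∀ t, f t ≤ g t) (hg : Continuous g) (hf0 : ∀ᵐ t, t ∈ Set.Ioc (0:ℝ) 1 → 0 < f t) :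
    IntervalIntegrable (fun t => Real.log (g t)) volume 0 1 := by
  obtain ⟨K, hK⟩ := (isCompact_Icc (a := (0:ℝ)) (b := 1)).exists_bound_of_continuousOn
    hg.continuousOn
  rw [intervalIntegrable_iff_integrableOn_Ioc_of_le zero_le_one] at hf ⊢
  have h1 : IntegrableOn (fun t => |Real.log (f t)| + Real.log (|K| + 1)) (Set.Ioc (0:ℝ) 1) :=
    hf.abs.add (integrable_const _)
  refine Integrable.mono' h1 (Real.measurable_log.comp hg.measurable).aestronglyMeasurable ?_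
  rw [ae_restrict_iff' measurableSet_Ioc]
  filter_upwards [hf0] with t ht htm
  have h2 := ht htm
  have h3 := hfg t
  have h4 : g t ≤ |K| + 1 := by
    have h5 := hK t ⟨htm.1.le, htm.2⟩
    rw [Real.norm_eq_abs] at h5
    have := le_abs_self (g t)
    have := le_abs_self K
    linarith
  have h6 : 0 ≤ Real.log (|K| + 1) := Real.log_nonneg (by linarith [abs_nonneg K])
  rw [Real.norm_eq_abs, abs_le]
  constructor
  · have h7 := Real.log_le_log h2 h3
    have h8 := neg_abs_le (Real.log (f t))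
    linarith
  · have h7 := Real.log_le_log (lt_of_lt_of_le h2 h3) h4
    have h8 := abs_nonneg (Real.log (f t))
    linarith

theorem ae_pos {A : ℤ[X]} (hA : A ≠ 0) : ∀ᵐ t : ℝ, t ∈ Set.Ioc (0:ℝ) 1 → 0 < ‖ev1 A t‖ := by
  have h := D_ae_ne A hA
  filter_upwards [h] with t ht _
  exact norm_pos_iff.2 ht

theorem hv_integrable {N : ℕ} (a : Fin N → ℤ[X]) (i : Fin N) (hi : a i ≠ 0) :
    IntervalIntegrable (fun t => Real.log (vn a t)) volume 0 1 :=
  int_log_of_le (D_intervalIntegrable_log (a i)) (le_vn a i) (vn_continuous a) (ae_pos hi)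

theorem mx1_le_hv {N : ℕ} (a : Fin N → ℤ[X]) (i j : Fin N) (hi : a i ≠ 0) :
    mx1 (a i) (a j) ≤ hv a := by
  unfold mx1 hv
  have h1 : IntervalIntegrable (fun t => Real.log (max ‖ev1 (a i) t‖ ‖ev1 (a j) t‖)) volume 0 1 :=
    int_log_of_le (D_intervalIntegrable_log (a i)) (fun t => le_max_left _ _)
      ((D_continuous_ev1 (a i)).norm.max (D_continuous_ev1 (a j)).norm) (ae_pos hi)
  refine intervalIntegral.integral_mono_ae zero_le_one h1 (hv_integrable a i hi) ?_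
  filter_upwards [D_ae_ne (a i) hi] with t ht
  refine Real.log_le_log (lt_of_lt_of_le (norm_pos_iff.2 ht) (le_max_left _ _)) ?_
  exact max_le (le_vn a i t) (le_vn a j t)

theorem mx1_one : mx1 1 1 = 0 := by
  unfold mx1 ev1 toC
  simp

/-- Compactness for primitive vectors of bounded height. -/
theorem vec_compact {N : ℕ} (a : ℕ → Fin N → ℤ[X]) (ha0 : ∀ n, ∃ i, a n i ≠ 0)
    (hprim : ∀ n, Prim (a n)) (K : ℝ) (hK : ∀ n, hv (a n) ≤ K) :
    ∃ (k : ℕ) (e : ℕ → Fin k → ℕ) (C : Fin N → MvPolynomial (Fin k) ℤ) (Q : ℕ → ℤ[X]),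
      (∃ i, C i ≠ 0) ∧ Prim C ∧ AsympIndep (hyperfilter ℕ : Filter ℕ) e ∧
      (∀ i, C i ≠ 0 → ∀ᶠ n in (hyperfilter ℕ : Filter ℕ), a n i ≠ 0) ∧
      (∀ᶠ n in (hyperfilter ℕ : Filter ℕ), Q n ≠ 0 ∧ ∀ i, spec (e n) (C i) = Q n * a n i) ∧
      Tendsto (fun n => Real.log (m1 (Q n))) (hyperfilter ℕ : Filter ℕ) (𝓝 0) := by
  classical
  -- the reference index
  obtain ⟨i0, hi0⟩ : ∃ i0, ∀ᶠ n in (hyperfilter ℕ : Filter ℕ), a n i0 ≠ 0 := by
    by_contra hcon
    have h1 : ∀ i, ∀ᶠ n in (hyperfilter ℕ : Filter ℕ), ¬ (a n i ≠ 0) := fun i => by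
      rw [Ultrafilter.eventually_not]
      exact fun h => hcon ⟨i, h⟩
    obtain ⟨n, hn⟩ := (Filter.eventually_all.2 h1).exists
    obtain ⟨i, hi⟩ := ha0 n
    exact hn i hi
  set A : Fin N → ℕ → ℤ[X] := fun j n => if a n i0 ≠ 0 ∧ a n j ≠ 0 then a n i0 else 1 with hA
  set B : Fin N → ℕ → ℤ[X] := fun j n => if a n i0 ≠ 0 ∧ a n j ≠ 0 then a n j else 1 with hB
  have hA0 : ∀ j n, A j n ≠ 0 := by
    intro j n
    simp only [hA]
    split_ifs with h
    · exact h.1
    · exact one_ne_zero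
  have hB0 : ∀ j n, B j n ≠ 0 := by
    intro j n
    simp only [hB]
    split_ifs with h
    · exact h.2
    · exact one_ne_zero
  obtain ⟨k, e, C', D', hC', hD', he, hrel⟩ := common_structure A B hA0 hB0 (max K 0) (by
    intro j n
    simp only [hA, hB]
    split_ifs with h
    · exact (mx1_le_hv (a n) i0 j h.1).trans ((hK n).trans (le_max_left _ _))
    · rw [mx1_one]
      exact le_max_right _ _)
  set J : Fin N → Prop := fun j => ∀ᶠ n in (hyperfilter ℕ : Filter ℕ), a n j ≠ 0 with hJ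
  set V : Fin N → MvPolynomial (Fin k) ℤ := fun j =>
    if J j then D' j * ∏ i ∈ Finset.univ.erase j, C' i else 0 with hV
  set W : MvPolynomial (Fin k) ℤ := ∏ i, C' i with hW
  have hrel1 : ∀ᶠ n in (hyperfilter ℕ : Filter ℕ), ∀ j,
      spec (e n) W * a n j = spec (e n) (V j) * a n i0 := by
    rw [Filter.eventually_all]
    intro j
    by_cases hj : J j
    · filter_upwards [hrel j, hj, hi0] with n h1 h2 h3
      simp only [hA, hB] at h1
      rw [if_pos ⟨h3, h2⟩, if_pos ⟨h3, h2⟩] at h1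
      simp only [hV]
      rw [if_pos hj, hW, ← Finset.mul_prod_erase Finset.univ C' (Finset.mem_univ j), map_mul, map_mul]
      linear_combination -(spec (e n) (∏ i ∈ Finset.univ.erase j, C' i)) * h1
    · have h1 : ∀ᶠ n in (hyperfilter ℕ : Filter ℕ), ¬ (a n j ≠ 0) := by
        rw [Ultrafilter.eventually_not]
        exact hj
      filter_upwards [h1] with n h1
      push Not at h1
      simp only [hV]
      rw [if_neg hj, h1, map_zero, zero_mul, mul_zero]
  have hrel2 : ∀ᶠ n in (hyperfilter ℕ : Filter ℕ), ∀ j,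
      spec (e n) (V i0) * a n j = spec (e n) (V j) * a n i0 := by
    filter_upwards [hrel1, hi0] with n h1 h2 j
    have h3 : spec (e n) W = spec (e n) (V i0) := mul_right_cancel₀ h2 (h1 i0)
    rw [← h3]
    exact h1 j
  have hJi0 : J i0 := hi0
  have hV0 : V i0 ≠ 0 := by
    simp only [hV]
    rw [if_pos hJi0]
    exact mul_ne_zero (hD' i0) (Finset.prod_ne_zero_iff.2 fun i _ => hC' i)
  obtain ⟨g, hg, C, hgC, hCprim⟩ := exists_prim V ⟨i0, hV0⟩
  have hCi0 : C i0 ≠ 0 := by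
    intro h
    apply hV0
    rw [hgC, h, mul_zero]
  have hQex : ∀ᶠ n in (hyperfilter ℕ : Filter ℕ), ∃ Q : ℤ[X], Q ≠ 0 ∧
      ∀ i, spec (e n) (C i) = Q * a n i := by
    filter_upwards [hrel2, hi0, spec_ne_zero _ e he g hg, spec_ne_zero _ e he (C i0) hCi0]
      with n h1 h2 h3 h4
    have h5 : ∀ j, spec (e n) (C i0) * a n j = spec (e n) (C j) * a n i0 := by
      intro j
      have h6 := h1 j
      rw [hgC i0, hgC j, map_mul, map_mul, mul_assoc, mul_assoc] at h6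
      exact mul_left_cancel₀ h3 h6
    have h6 : a n i0 ∣ spec (e n) (C i0) :=
      (hprim n).dvd_of_forall fun j => ⟨spec (e n) (C j), by rw [h5 j, mul_comm]⟩
    obtain ⟨Q, hQ⟩ := h6
    refine ⟨Q, ?_, fun j => ?_⟩
    · rintro rfl
      rw [mul_zero] at hQ
      exact h4 hQ
    · apply mul_right_cancel₀ h2
      rw [← h5 j, hQ]
      ring
  have hsel : ∀ n, ∃ Q : ℤ[X], (∃ Q : ℤ[X], Q ≠ 0 ∧ ∀ i, spec (e n) (C i) = Q * a n i) →
      Q ≠ 0 ∧ ∀ i, spec (e n) (C i) = Q * a n i := by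
    intro n
    by_cases h : ∃ Q : ℤ[X], Q ≠ 0 ∧ ∀ i, spec (e n) (C i) = Q * a n i
    · obtain ⟨Q, hQ⟩ := h
      exact ⟨Q, fun _ => hQ⟩
    · exact ⟨0, fun h' => absurd h' h⟩
  choose Q hQ using hsel
  have hQ' : ∀ᶠ n in (hyperfilter ℕ : Filter ℕ), Q n ≠ 0 ∧ ∀ i, spec (e n) (C i) = Q n * a n i :=
    hQex.mono fun n hn => hQ n hn
  refine ⟨k, e, C, Q, ⟨i0, hCi0⟩, hCprim, he, fun i hi => ?_, hQ', ?_⟩
  · by_contra hcon
    apply hi
    have h1 : V i = 0 := by
      simp only [hV]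
      rw [if_neg hcon]
    rw [hgC i] at h1
    exact (mul_eq_zero.1 h1).resolve_left hg
  · exact gcd_lim C ⟨i0, hCi0⟩ hCprim e he Q (hQ'.mono fun n hn => ⟨hn.1, fun i => ⟨_, hn.2 i⟩⟩)

end

end Pool.Agent.T9h56.MT
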